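import Pool.Agent.H17.QV.Core
import Pool.Agent.H17.QI.Immune

/-!
# One level of the oracle
-/

set_option autoImplicit false

namespace Pool.Agent.H17.QM

open MeasureTheory Filter Topology

section

variable {κ Y I : Type} [Fintype Y] [DecidableEq Y] [Fintype I] [DecidableEq I] {e : Y × I → κ}

lemma QAlg.sum_sq_prob (Q : QAlg κ) (he : Function.Injective e) {w : ℝ} (hw : 0 ≤ w)
    (o : I → Bool) (ω : κ → Bool) (g : Y → I → Bool) :
    ∑ W : Finset Y, w ^ W.card *
      (Q.prob (ph (fill e ω (plant o g W))) - Q.prob (ph (fill e ω g))) ^ 2 ≤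
        (16 * (Q.T : ℝ) ^ 2 * w) * (1 + w) ^ Fintype.card Y := by
  have h1 : ∀ W : Finset Y,
      (Q.prob (ph (fill e ω (plant o g W))) - Q.prob (ph (fill e ω g))) ^ 2 ≤
        16 * Q.T * ∑ s ∈ Finset.range Q.T,
          Q.wt (Q.diff (ph (fill e ω (plant o g W))) (ph (fill e ω g)))
            (Q.state (ph (fill e ω g)) s) := by
    intro W
    have a1 := Q.abs_prob_sub (norm_ph (fill e ω (plant o g W))) (norm_ph (fill e ω g))
    have a2 := Q.norm_state_sub_sq (norm_ph (fill e ω (plant o g W))) (norm_ph (fill e ω g)) Q.T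
    set D := ‖Q.state (ph (fill e ω (plant o g W))) Q.T - Q.state (ph (fill e ω g)) Q.T‖
    have a3 : (Q.prob (ph (fill e ω (plant o g W))) - Q.prob (ph (fill e ω g))) ^ 2 ≤
        (2 * D) ^ 2 := by
      rw [← sq_abs]
      exact pow_le_pow_left₀ (abs_nonneg _) a1 2
    nlinarith
  calc ∑ W : Finset Y, w ^ W.card *
      (Q.prob (ph (fill e ω (plant o g W))) - Q.prob (ph (fill e ω g))) ^ 2
      ≤ ∑ W : Finset Y, w ^ W.card * (16 * Q.T * ∑ s ∈ Finset.range Q.T,
          Q.wt (Q.diff (ph (fill e ω (plant o g W))) (ph (fill e ω g)))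
            (Q.state (ph (fill e ω g)) s)) :=
        Finset.sum_le_sum fun W _ => mul_le_mul_of_nonneg_left (h1 W) (by positivity)
    _ = 16 * Q.T * ∑ s ∈ Finset.range Q.T,
          ∑ W : Finset Y, w ^ W.card *
            Q.wt (Q.diff (ph (fill e ω (plant o g W))) (ph (fill e ω g)))
            (Q.state (ph (fill e ω g)) s) := by
        rw [Finset.sum_comm, Finset.mul_sum]
        refine Finset.sum_congr rfl fun W _ => ?_
        rw [Finset.mul_sum, Finset.mul_sum, Finset.mul_sum]
        refine Finset.sum_congr rfl fun s _ => ?_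
        ring
    _ ≤ 16 * Q.T * ∑ s ∈ Finset.range Q.T, (w * (1 + w) ^ Fintype.card Y) := by
        refine mul_le_mul_of_nonneg_left (Finset.sum_le_sum fun s _ => ?_) (by positivity)
        exact Q.sum_wt_diff he hw o ω g _ (Q.norm_state (norm_ph _) s)
    _ = (16 * (Q.T : ℝ) ^ 2 * w) * (1 + w) ^ Fintype.card Y := by
        rw [Finset.sum_const, Finset.card_range, nsmul_eq_mul]
        ring

lemma measurable_fill (he : Function.Injective e) (g : Y → I → Bool) :
    Measurable fun ω : κ → Bool => fill e ω g := by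
  refine measurable_pi_lambda _ fun s => ?_
  by_cases hs : ∃ p, e p = s
  · obtain ⟨⟨y, i⟩, rfl⟩ := hs
    simp only [fill_block e he]
    exact measurable_const
  · have : (fun ω : κ → Bool => fill e ω g s) = fun ω => ω s := by
      funext ω
      exact fill_off _ _ _ fun p hp => hs ⟨p, hp⟩
    rw [this]
    exact measurable_pi_apply s

/-- From a pointwise inequality for the fillings of a block to the measure, relative to an event
that does not depend on the block. -/
theorem level_measure (he : Function.Injective e) {Z S E : Set (κ → Bool)}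
    (hZ : MeasurableSet Z) (hS : MeasurableSet S) (hE : MeasurableSet E)
    (hE' : ∀ ω g, fill e ω g ∈ E ↔ ω ∈ E) {μ τ : ℝ}
    (h : ∀ ω, ∑ g : Y → I → Bool, Z.indicator (fun _ => (1 : ℝ)) (fill e ω g) ≤
      μ * (∑ g : Y → I → Bool, Sᶜ.indicator (fun _ => (1 : ℝ)) (fill e ω g)) +
        τ * Fintype.card (Y → I → Bool)) (hτ : 0 ≤ τ) :
    (coins κ).real (E ∩ Z) ≤ μ * (coins κ).real (E ∩ Sᶜ) + τ := by
  classical
  set N : ℝ := (Fintype.card (Y → I → Bool) : ℝ) with hN
  have hNpos : 0 < N := by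
    rw [hN]; exact_mod_cast Fintype.card_pos
  have hr : ∀ {D : Set (κ → Bool)}, MeasurableSet D → N * (coins κ).real D =
      ∫ ω, ∑ g : Y → I → Bool, D.indicator (fun _ => (1 : ℝ)) (fill e ω g) ∂(coins κ) := by
    intro D hD
    have h1 := resample (κ := κ) e he (F := D.indicator fun _ => (1 : ℝ))
      ((integrable_const 1).indicator hD)
    rw [integral_indicator hD] at h1
    simpa only [integral_const, measureReal_restrict_apply_univ, smul_eq_mul, mul_one] using h1
  have hi : ∀ {D : Set (κ → Bool)}, MeasurableSet D → Integrable (fun ω =>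
      ∑ g : Y → I → Bool, D.indicator (fun _ => (1 : ℝ)) (fill e ω g)) (coins κ) := by
    intro D hD
    refine integrable_finsetSum _ fun g _ => ?_
    have hm : Measurable fun ω : κ → Bool => D.indicator (fun _ => (1 : ℝ)) (fill e ω g) :=
      (measurable_const.indicator hD).comp (measurable_fill he g)
    refine Integrable.of_bound hm.aestronglyMeasurable 1 (ae_of_all _ fun ω => ?_)
    by_cases h1 : fill e ω g ∈ D
    · rw [Set.indicator_of_mem h1]; simp
    · rw [Set.indicator_of_notMem h1]; simp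
  have h1 := hr (hE.inter hZ)
  have h2 := hr (hE.inter hS.compl)
  have hpt : ∀ ω, ∑ g : Y → I → Bool, (E ∩ Z).indicator (fun _ => (1 : ℝ)) (fill e ω g) ≤
      μ * (∑ g : Y → I → Bool, (E ∩ Sᶜ).indicator (fun _ => (1 : ℝ)) (fill e ω g)) + τ * N := by
    intro ω
    by_cases hω : ω ∈ E
    · have e1 : ∀ (D : Set (κ → Bool)) (g : Y → I → Bool),
          (E ∩ D).indicator (fun _ => (1 : ℝ)) (fill e ω g) =
          D.indicator (fun _ => (1 : ℝ)) (fill e ω g) := by
        intro D g
        by_cases hD : fill e ω g ∈ D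
        · have hED : fill e ω g ∈ E ∩ D := ⟨(hE' ω g).2 hω, hD⟩
          rw [Set.indicator_of_mem hD, Set.indicator_of_mem hED]
        · rw [Set.indicator_of_notMem hD, Set.indicator_of_notMem fun h => hD h.2]
      simp only [e1]
      exact h ω
    · have e1 : ∀ (D : Set (κ → Bool)) (g : Y → I → Bool),
          (E ∩ D).indicator (fun _ => (1 : ℝ)) (fill e ω g) = 0 := by
        intro D g
        rw [Set.indicator_of_notMem fun h => hω ((hE' ω g).1 h.1)]
      simp only [e1, Finset.sum_const_zero, mul_zero, zero_add]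
      positivity
  have h3 : N * (coins κ).real (E ∩ Z) ≤ N * (μ * (coins κ).real (E ∩ Sᶜ) + τ) := by
    rw [h1]
    calc ∫ ω, ∑ g : Y → I → Bool, (E ∩ Z).indicator (fun _ => (1 : ℝ)) (fill e ω g) ∂(coins κ)
        ≤ ∫ ω, (μ * (∑ g : Y → I → Bool, (E ∩ Sᶜ).indicator (fun _ => (1 : ℝ)) (fill e ω g)) +
          τ * N) ∂(coins κ) :=
          integral_mono (hi (hE.inter hZ))
            (((hi (hE.inter hS.compl)).const_mul μ).add (integrable_const _)) hpt
      _ = μ * (∫ ω, ∑ g : Y → I → Bool,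
            (E ∩ Sᶜ).indicator (fun _ => (1 : ℝ)) (fill e ω g) ∂(coins κ)) + τ * N := by
          rw [integral_add ((hi (hE.inter hS.compl)).const_mul μ) (integrable_const _),
            integral_const_mul]
          simp
      _ = N * (μ * (coins κ).real (E ∩ Sᶜ) + τ) := by rw [← h2]; ring
  exact le_of_mul_le_mul_left h3 hNpos

end

section

variable {κ X Y I : Type} [Fintype X] [DecidableEq X] [Fintype Y] [DecidableEq Y] [Fintype I]
  [DecidableEq I] {e : (X × Y) × I → κ}

lemma plant_row_sq (Q : QAlg κ) (he : Function.Injective e) {w : ℝ} (hw : 0 ≤ w) (o : I → Bool)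
    (ω : κ → Bool) (g : X × Y → I → Bool) (x : X) {V : Finset (X × Y)}
    (hV : ∀ y, (x, y) ∉ V) :
    ∑ U : Finset Y, w ^ U.card * (Q.prob (ph (fill e ω (plant o g (addRow V x U)))) -
      Q.prob (ph (fill e ω (plant o g V)))) ^ 2 ≤
        (16 * (Q.T : ℝ) ^ 2 * w) * (1 + w) ^ Fintype.card Y := by
  have hex : Function.Injective fun q : Y × I => e ((x, q.1), q.2) := by
    intro q q' h
    have := he h
    simp only [Prod.mk.injEq, true_and] at this
    exact Prod.ext this.1 this.2
  have h1 := Q.sum_sq_prob hex hw o (fill e ω (plant o g V)) (fun y => g (x, y))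
  have h2 : fill (fun q : Y × I => e ((x, q.1), q.2)) (fill e ω (plant o g V))
      (fun y => g (x, y)) = fill e ω (plant o g V) := by
    have h3 := fill_row_self he ω (plant o g V) x
    have h4 : (fun y => plant o g V (x, y)) = fun y => g (x, y) := by
      funext y
      simp [plant, hV y]
    rw [h4] at h3
    exact h3
  rw [h2] at h1
  simp only [fill_addRow he o ω g x hV] at h1
  exact h1

omit [Fintype X] [DecidableEq X] [Fintype Y] [DecidableEq Y] in
lemma combine {P : Type} [Fintype P] [DecidableEq P] (hK : 2 ≤ Fintype.card (I → Bool))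
    (o : I → Bool) {A B : ℝ} {f g : (P → I → Bool) → ℝ}
    (h : ∀ q ∈ wf (Y := P) o, f q ≤ A * g q + B * (1 + wq (I → Bool)) ^ Fintype.card P) :
    ∑ q ∈ wf (Y := P) o, f q ≤
      A * (∑ q ∈ wf (Y := P) o, g q) + B * Fintype.card (P → I → Bool) := by
  calc ∑ q ∈ wf (Y := P) o, f q
      ≤ ∑ q ∈ wf (Y := P) o, (A * g q + B * (1 + wq (I → Bool)) ^ Fintype.card P) :=
        Finset.sum_le_sum h
    _ = A * (∑ q ∈ wf (Y := P) o, g q) +
        B * (((wf (Y := P) o).card : ℝ) * (1 + wq (I → Bool)) ^ Fintype.card P) := by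
        rw [Finset.sum_add_distrib, Finset.sum_const, nsmul_eq_mul, Finset.mul_sum]
        ring
    _ = _ := by rw [card_wf hK o]

/-- The pointwise inequality on the `NP` side. -/
theorem point_np (he : Function.Injective e) (V : X → QVer κ) (ω : κ → Bool) (o : I → Bool)
    (hK : 2 ≤ Fintype.card (I → Bool)) {a b : ℝ} (hab : b < a)
    {T : ℝ} (hT : ∀ x, ((V x).T : ℝ) ≤ T) {Z S : Set (κ → Bool)}
    (hZ : ∀ g ∈ wf (Y := X × Y) o, ∀ W, fill e ω (plant o g W) ∈ Z →
      ∃ x, (∃ y, (x, y) ∈ W) ∧ (V x).Below (ph (fill e ω (plant o g W))) b)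
    (hS : ∀ g ∈ wf (Y := X × Y) o, ∀ W, fill e ω (plant o g W) ∈ S → ∀ x, (∀ y, (x, y) ∉ W) →
      (V x).Accepts (ph (fill e ω (plant o g W))) a) :
    ∑ g : X × Y → I → Bool, Z.indicator (fun _ => (1 : ℝ)) (fill e ω g) ≤
      Fintype.card X * ((1 + wq (I → Bool)) ^ Fintype.card Y - 1) *
        (∑ g : X × Y → I → Bool, Sᶜ.indicator (fun _ => (1 : ℝ)) (fill e ω g)) +
      Fintype.card X * (16 * T ^ 2 * wq (I → Bool) / (a - b) ^ 2) *
        Fintype.card (X × Y → I → Bool) := by
  classical
  set w := wq (I → Bool) with hw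
  have hw0 : 0 < w := wq_pos hK
  have hZ1 : 1 ≤ (1 + w) ^ Fintype.card Y := one_le_pow₀ (by linarith)
  rw [sum_eq_plant (Y := X × Y) o hK, sum_eq_plant (Y := X × Y) o hK]
  refine combine hK o (fun g hg => ?_)
  have h1 := core_np (X := X) (Y := Y) (fun x => (V x).wit)
    (fun x ψ W => ((V x).alg ψ).prob (ph (fill e ω (plant o g W)))) hw0.le hab
    (η := 16 * T ^ 2 * w) (by positivity) fun x ψ V' hV' => ?_
  · rw [Fintype.card_prod]
    refine le_trans ?_ (h1.trans ?_)
    · refine Finset.sum_le_sum fun W _ => mul_le_mul_of_nonneg_left ?_ (by positivity)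
      by_cases hmem : fill e ω (plant o g W) ∈ Z
      · rw [Set.indicator_of_mem hmem, if_pos]
        obtain ⟨x, h2, h3⟩ := hZ g hg W hmem
        exact ⟨x, h2, h3⟩
      · rw [Set.indicator_of_notMem hmem]
        split_ifs <;> norm_num
    · refine add_le_add ?_ le_rfl
      refine mul_le_mul_of_nonneg_left ?_ (mul_nonneg (by positivity) (by linarith))
      refine Finset.sum_le_sum fun W _ => mul_le_mul_of_nonneg_left ?_ (by positivity)
      by_cases hmem : fill e ω (plant o g W) ∈ S
      · rw [Set.indicator_of_notMem (show fill e ω (plant o g W) ∉ Sᶜ from fun h => h hmem), if_neg]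
        rintro ⟨x, h2, h3⟩
        obtain ⟨ψ, h4⟩ := hS g hg W hmem x h2
        exact absurd (h3 ψ) (not_lt.2 h4)
      · rw [Set.indicator_of_mem (show fill e ω (plant o g W) ∈ Sᶜ from hmem)]
        split_ifs <;> norm_num
  · refine (plant_row_sq ((V x).alg ψ) he hw0.le o ω g x (mem_noRow.1 hV')).trans ?_
    refine mul_le_mul_of_nonneg_right ?_ (by positivity)
    have h1 : (((V x).alg ψ).T : ℝ) ^ 2 ≤ T ^ 2 :=
      pow_le_pow_left₀ (Nat.cast_nonneg _) (hT x) 2
    gcongr

/-- The pointwise inequality on the `coNP` side. -/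
theorem point_co (he : Function.Injective e) (V : X → QVer κ) (ω : κ → Bool) (o : I → Bool)
    (hK : 2 ≤ Fintype.card (I → Bool)) {a b : ℝ} (hab : b < a)
    {T : ℝ} (hT : ∀ x, ((V x).T : ℝ) ≤ T) {Z S : Set (κ → Bool)}
    (hZ : ∀ g ∈ wf (Y := X × Y) o, ∀ W, fill e ω (plant o g W) ∈ Z →
      ∃ x, (∀ y, (x, y) ∉ W) ∧ (V x).Accepts (ph (fill e ω (plant o g W))) a)
    (hS : ∀ g ∈ wf (Y := X × Y) o, ∀ W, fill e ω (plant o g W) ∈ S → ∀ x, (∃ y, (x, y) ∈ W) →
      (V x).Below (ph (fill e ω (plant o g W))) b) :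
    ∑ g : X × Y → I → Bool, Z.indicator (fun _ => (1 : ℝ)) (fill e ω g) ≤
      Fintype.card X * (1 / (1 + wq (I → Bool)) ^ Fintype.card Y) *
        (∑ g : X × Y → I → Bool, Sᶜ.indicator (fun _ => (1 : ℝ)) (fill e ω g)) +
      Fintype.card X * (1 / (1 + wq (I → Bool)) ^ Fintype.card Y) *
        (1 / (1 + wq (I → Bool)) ^ Fintype.card Y +
          16 * T ^ 2 * wq (I → Bool) / (a - b) ^ 2) *
        Fintype.card (X × Y → I → Bool) := by
  classical
  set w := wq (I → Bool) with hw
  have hw0 : 0 < w := wq_pos hK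
  have hZ1 : 1 ≤ (1 + w) ^ Fintype.card Y := one_le_pow₀ (by linarith)
  rw [sum_eq_plant (Y := X × Y) o hK, sum_eq_plant (Y := X × Y) o hK]
  refine combine hK o (fun g hg => ?_)
  have h1 := core_co (X := X) (Y := Y) (fun x => (V x).wit)
    (fun x ψ W => ((V x).alg ψ).prob (ph (fill e ω (plant o g W)))) hw0.le hab
    (η := 16 * T ^ 2 * w) (by positivity) fun x ψ V' hV' => ?_
  · rw [Fintype.card_prod]
    refine le_trans ?_ (h1.trans ?_)
    · refine Finset.sum_le_sum fun W _ => mul_le_mul_of_nonneg_left ?_ (by positivity)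
      by_cases hmem : fill e ω (plant o g W) ∈ Z
      · rw [Set.indicator_of_mem hmem, if_pos]
        obtain ⟨x, h2, h3⟩ := hZ g hg W hmem
        exact ⟨x, h2, h3⟩
      · rw [Set.indicator_of_notMem hmem]
        split_ifs <;> norm_num
    · refine add_le_add ?_ le_rfl
      refine mul_le_mul_of_nonneg_left ?_ (by positivity)
      refine Finset.sum_le_sum fun W _ => mul_le_mul_of_nonneg_left ?_ (by positivity)
      by_cases hmem : fill e ω (plant o g W) ∈ S
      · rw [Set.indicator_of_notMem (show fill e ω (plant o g W) ∉ Sᶜ from fun h => h hmem), if_neg]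
        rintro ⟨x, h2, ψ, h3⟩
        exact absurd (hS g hg W hmem x h2 ψ) (not_le.2 h3)
      · rw [Set.indicator_of_mem (show fill e ω (plant o g W) ∈ Sᶜ from hmem)]
        split_ifs <;> norm_num
  · refine (plant_row_sq ((V x).alg ψ) he hw0.le o ω g x (mem_noRow.1 hV')).trans ?_
    refine mul_le_mul_of_nonneg_right ?_ (by positivity)
    have h1 : (((V x).alg ψ).T : ℝ) ^ 2 ≤ T ^ 2 :=
      pow_le_pow_left₀ (Nat.cast_nonneg _) (hT x) 2
    gcongr

end

end Pool.Agent.H17.QM
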