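import Pool.Agent.H17.QI.Core

/-!
# The finite combinatorial core of the immunity theorems for sparse languages
-/

set_option autoImplicit false

namespace Pool.Agent.H17.QM

section

variable {X Y : Type*} [Fintype X] [DecidableEq X] [Fintype Y] [DecidableEq Y]

lemma sum_noRow {w : ℝ} (hw : 0 ≤ w) (x : X) :
    ∑ V ∈ noRow Y x, w ^ V.card =
      1 / (1 + w) ^ Fintype.card Y * (1 + w) ^ (Fintype.card X * Fintype.card Y) := by
  have hZpos : 0 < (1 + w) ^ Fintype.card Y := by positivity
  have h1 := sum_clr (Y := Y) x w fun _ => (1 : ℝ)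
  simp only [mul_one] at h1
  rw [sum_pow_card', Fintype.card_prod] at h1
  rw [h1, ← mul_assoc, one_div_mul_cancel hZpos.ne', one_mul]

lemma sum_nonempty (w : ℝ) :
    ∑ U : Finset Y, (if U = ∅ then (0 : ℝ) else w ^ U.card) = (1 + w) ^ Fintype.card Y - 1 := by
  have h1 : ∀ U : Finset Y, (if U = ∅ then (0 : ℝ) else w ^ U.card) =
      w ^ U.card - if U = ∅ then 1 else 0 := by
    intro U
    split_ifs with h
    · rw [h]; simp
    · ring
  simp only [h1, Finset.sum_sub_distrib, sum_pow_card']
  simp

variable (Ψ : X → Type*) (p : ∀ x, Ψ x → Finset (X × Y) → ℝ)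

open Classical in
/-- The `NP` side: a member on which all witness states are rejected is rare compared with
a non-member on which no witness state is accepted. -/
theorem core_np {w : ℝ} (hw : 0 ≤ w) {a b η : ℝ} (hab : b < a) (hη : 0 ≤ η)
    (hplant : ∀ x ψ, ∀ V ∈ noRow Y x, ∑ U : Finset Y, w ^ U.card *
      (p x ψ (addRow V x U) - p x ψ V) ^ 2 ≤ η * (1 + w) ^ Fintype.card Y) :
    ∑ W : Finset (X × Y), w ^ W.card *
      (if ∃ x, (∃ y, (x, y) ∈ W) ∧ ∀ ψ, p x ψ W ≤ b then (1 : ℝ) else 0) ≤
    Fintype.card X * ((1 + w) ^ Fintype.card Y - 1) * (∑ W : Finset (X × Y), w ^ W.card *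
      (if ∃ x, (∀ y, (x, y) ∉ W) ∧ ∀ ψ, p x ψ W < a then (1 : ℝ) else 0)) +
      Fintype.card X * (η / (a - b) ^ 2) * (1 + w) ^ (Fintype.card X * Fintype.card Y) := by
  set Z : ℝ := (1 + w) ^ Fintype.card Y with hZ
  set Zt : ℝ := (1 + w) ^ (Fintype.card X * Fintype.card Y) with hZt
  have hZpos : 0 < Z := by positivity
  have hZ1 : 1 ≤ Z := one_le_pow₀ (by linarith)
  have hγ : 0 < (a - b) ^ 2 := by
    have : 0 < a - b := by linarith
    positivity
  set B : Finset (X × Y) → ℝ := fun W =>
    if ∃ x, (∀ y, (x, y) ∉ W) ∧ ∀ ψ, p x ψ W < a then (1 : ℝ) else 0 with hB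
  have hB0 : ∀ W, 0 ≤ B W := fun W => by simp only [hB]; split_ifs <;> norm_num
  have hstep1 : ∀ W : Finset (X × Y),
      (if ∃ x, (∃ y, (x, y) ∈ W) ∧ ∀ ψ, p x ψ W ≤ b then (1 : ℝ) else 0) ≤
      ∑ x, if (∃ y, (x, y) ∈ W) ∧ ∀ ψ, p x ψ W ≤ b then (1 : ℝ) else 0 := by
    intro W
    have hnn : ∀ x, (0 : ℝ) ≤ if (∃ y, (x, y) ∈ W) ∧ ∀ ψ, p x ψ W ≤ b then (1 : ℝ) else 0 := by
      intro x; split_ifs <;> norm_num
    split_ifs with h
    · obtain ⟨x, h1⟩ := h
      refine le_trans ?_ (Finset.single_le_sum (fun x _ => hnn x) (Finset.mem_univ x))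
      rw [if_pos h1]
    · exact Finset.sum_nonneg fun x _ => hnn x
  have hx : ∀ x : X, ∑ W : Finset (X × Y), w ^ W.card *
      (if (∃ y, (x, y) ∈ W) ∧ ∀ ψ, p x ψ W ≤ b then (1 : ℝ) else 0) ≤
      (Z - 1) * ∑ W : Finset (X × Y), w ^ W.card * B W + η / (a - b) ^ 2 * Zt := by
    intro x
    rw [sum_rows x]
    have hV : ∀ V ∈ noRow Y x, ∑ U : Finset Y, w ^ (addRow V x U).card *
        (if (∃ y, (x, y) ∈ addRow V x U) ∧ ∀ ψ, p x ψ (addRow V x U) ≤ b then (1 : ℝ) else 0) ≤
        w ^ V.card * ((Z - 1) * B V + η / (a - b) ^ 2 * Z) := by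
      intro V hV
      have hV' := mem_noRow.1 hV
      by_cases hcase : ∀ ψ, p x ψ V < a
      · have hBV : B V = 1 := by
          simp only [hB]
          rw [if_pos ⟨x, hV', hcase⟩]
        rw [hBV]
        calc ∑ U : Finset Y, w ^ (addRow V x U).card *
            (if (∃ y, (x, y) ∈ addRow V x U) ∧ ∀ ψ, p x ψ (addRow V x U) ≤ b
              then (1 : ℝ) else 0)
            ≤ ∑ U : Finset Y, w ^ V.card * (if U = ∅ then (0 : ℝ) else w ^ U.card) := by
              refine Finset.sum_le_sum fun U _ => ?_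
              rw [card_addRow hV, pow_add, mul_assoc]
              refine mul_le_mul_of_nonneg_left ?_ (by positivity)
              by_cases hU : U = ∅
              · rw [if_pos hU, if_neg, mul_zero]
                rintro ⟨⟨y, hy⟩, -⟩
                rw [hU, mem_addRow] at hy
                rcases hy with hy | hy
                · exact hV' y hy
                · simp at hy
              · rw [if_neg hU]
                split_ifs
                · rw [mul_one]
                · rw [mul_zero]; positivity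
          _ = w ^ V.card * (Z - 1) := by rw [← Finset.mul_sum, sum_nonempty]
          _ ≤ w ^ V.card * ((Z - 1) * 1 + η / (a - b) ^ 2 * Z) := by
              refine mul_le_mul_of_nonneg_left ?_ (by positivity)
              have : 0 ≤ η / (a - b) ^ 2 * Z := by positivity
              linarith
      · push Not at hcase
        obtain ⟨ψ, hψ⟩ := hcase
        calc ∑ U : Finset Y, w ^ (addRow V x U).card *
            (if (∃ y, (x, y) ∈ addRow V x U) ∧ ∀ ψ, p x ψ (addRow V x U) ≤ b
              then (1 : ℝ) else 0)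
            ≤ ∑ U : Finset Y, w ^ V.card * (1 / (a - b) ^ 2 * (w ^ U.card *
                (p x ψ (addRow V x U) - p x ψ V) ^ 2)) := by
              refine Finset.sum_le_sum fun U _ => ?_
              rw [card_addRow hV, pow_add, mul_assoc]
              refine mul_le_mul_of_nonneg_left ?_ (by positivity)
              rw [mul_left_comm]
              refine mul_le_mul_of_nonneg_left ?_ (by positivity)
              split_ifs with h
              · have h1 := h.2 ψ
                have h2 : (a - b) ^ 2 ≤ (p x ψ (addRow V x U) - p x ψ V) ^ 2 := by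
                  nlinarith
                rw [one_div, inv_mul_eq_div, le_div_iff₀ hγ, one_mul]
                exact h2
              · positivity
          _ = w ^ V.card * (1 / (a - b) ^ 2 * ∑ U : Finset Y, w ^ U.card *
                (p x ψ (addRow V x U) - p x ψ V) ^ 2) := by
              rw [← Finset.mul_sum, ← Finset.mul_sum]
          _ ≤ w ^ V.card * (1 / (a - b) ^ 2 * (η * Z)) := by
              refine mul_le_mul_of_nonneg_left (mul_le_mul_of_nonneg_left (hplant x ψ V hV)
                (by positivity)) (by positivity)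
          _ = w ^ V.card * (0 + η / (a - b) ^ 2 * Z) := by ring
          _ ≤ _ := by
              refine mul_le_mul_of_nonneg_left (add_le_add ?_ le_rfl) (by positivity)
              exact mul_nonneg (by linarith) (hB0 V)
    calc ∑ V ∈ noRow Y x, ∑ U : Finset Y, w ^ (addRow V x U).card *
        (if (∃ y, (x, y) ∈ addRow V x U) ∧ ∀ ψ, p x ψ (addRow V x U) ≤ b then (1 : ℝ) else 0)
        ≤ ∑ V ∈ noRow Y x, w ^ V.card * ((Z - 1) * B V + η / (a - b) ^ 2 * Z) :=
          Finset.sum_le_sum hV
      _ = (Z - 1) * (∑ V ∈ noRow Y x, w ^ V.card * B V) +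
            η / (a - b) ^ 2 * Z * ∑ V ∈ noRow Y x, w ^ V.card := by
          rw [Finset.mul_sum, Finset.mul_sum, ← Finset.sum_add_distrib]
          refine Finset.sum_congr rfl fun V _ => ?_
          ring
      _ ≤ (Z - 1) * (∑ W : Finset (X × Y), w ^ W.card * B W) +
            η / (a - b) ^ 2 * Z * (1 / Z * Zt) := by
          rw [sum_noRow hw]
          refine add_le_add (mul_le_mul_of_nonneg_left ?_ (by linarith)) le_rfl
          exact Finset.sum_le_sum_of_subset_of_nonneg (Finset.subset_univ _)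
            fun W _ _ => mul_nonneg (by positivity) (hB0 W)
      _ = _ := by field_simp
  calc ∑ W : Finset (X × Y), w ^ W.card *
      (if ∃ x, (∃ y, (x, y) ∈ W) ∧ ∀ ψ, p x ψ W ≤ b then (1 : ℝ) else 0)
      ≤ ∑ W : Finset (X × Y), w ^ W.card *
        ∑ x, (if (∃ y, (x, y) ∈ W) ∧ ∀ ψ, p x ψ W ≤ b then (1 : ℝ) else 0) :=
        Finset.sum_le_sum fun W _ => mul_le_mul_of_nonneg_left (hstep1 W) (by positivity)
    _ = ∑ x, ∑ W : Finset (X × Y), w ^ W.card *
        (if (∃ y, (x, y) ∈ W) ∧ ∀ ψ, p x ψ W ≤ b then (1 : ℝ) else 0) := by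
        simp only [Finset.mul_sum]
        exact Finset.sum_comm
    _ ≤ ∑ _x : X, ((Z - 1) * ∑ W : Finset (X × Y), w ^ W.card * B W +
        η / (a - b) ^ 2 * Zt) := Finset.sum_le_sum fun x _ => hx x
    _ = _ := by
        rw [Finset.sum_const, Finset.card_univ, nsmul_eq_mul]
        ring

open Classical in
/-- The `coNP` side: a member on which some witness state is accepted is rare compared with
a non-member on which some witness state is accepted. -/
theorem core_co {w : ℝ} (hw : 0 ≤ w) {a b η : ℝ} (hab : b < a) (hη : 0 ≤ η)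
    (hplant : ∀ x ψ, ∀ V ∈ noRow Y x, ∑ U : Finset Y, w ^ U.card *
      (p x ψ (addRow V x U) - p x ψ V) ^ 2 ≤ η * (1 + w) ^ Fintype.card Y) :
    ∑ W : Finset (X × Y), w ^ W.card *
      (if ∃ x, (∀ y, (x, y) ∉ W) ∧ ∃ ψ, a ≤ p x ψ W then (1 : ℝ) else 0) ≤
    Fintype.card X * (1 / (1 + w) ^ Fintype.card Y) * (∑ W : Finset (X × Y), w ^ W.card *
      (if ∃ x, (∃ y, (x, y) ∈ W) ∧ ∃ ψ, b < p x ψ W then (1 : ℝ) else 0)) +
      Fintype.card X * (1 / (1 + w) ^ Fintype.card Y) *
        (1 / (1 + w) ^ Fintype.card Y + η / (a - b) ^ 2) *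
        (1 + w) ^ (Fintype.card X * Fintype.card Y) := by
  set Z : ℝ := (1 + w) ^ Fintype.card Y with hZ
  set Zt : ℝ := (1 + w) ^ (Fintype.card X * Fintype.card Y) with hZt
  have hZpos : 0 < Z := by positivity
  have hγ : 0 < (a - b) ^ 2 := by
    have : 0 < a - b := by linarith
    positivity
  set B : Finset (X × Y) → ℝ := fun W =>
    if ∃ x, (∃ y, (x, y) ∈ W) ∧ ∃ ψ, b < p x ψ W then (1 : ℝ) else 0 with hB
  have hB0 : ∀ W, 0 ≤ B W := fun W => by simp only [hB]; split_ifs <;> norm_num
  have hstep1 : ∀ W : Finset (X × Y),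
      (if ∃ x, (∀ y, (x, y) ∉ W) ∧ ∃ ψ, a ≤ p x ψ W then (1 : ℝ) else 0) ≤
      ∑ x, if (∀ y, (x, y) ∉ W) ∧ ∃ ψ, a ≤ p x ψ W then (1 : ℝ) else 0 := by
    intro W
    have hnn : ∀ x, (0 : ℝ) ≤ if (∀ y, (x, y) ∉ W) ∧ ∃ ψ, a ≤ p x ψ W then (1 : ℝ) else 0 := by
      intro x; split_ifs <;> norm_num
    split_ifs with h
    · obtain ⟨x, h1⟩ := h
      refine le_trans ?_ (Finset.single_le_sum (fun x _ => hnn x) (Finset.mem_univ x))
      rw [if_pos h1]
    · exact Finset.sum_nonneg fun x _ => hnn x
  have hx : ∀ x : X, ∑ W : Finset (X × Y), w ^ W.card *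
      (if (∀ y, (x, y) ∉ W) ∧ ∃ ψ, a ≤ p x ψ W then (1 : ℝ) else 0) ≤
      1 / Z * ∑ W : Finset (X × Y), w ^ W.card * B W +
        1 / Z * (1 / Z + η / (a - b) ^ 2) * Zt := by
    intro x
    have h0 : ∑ W : Finset (X × Y), w ^ W.card *
        (if (∀ y, (x, y) ∉ W) ∧ ∃ ψ, a ≤ p x ψ W then (1 : ℝ) else 0) =
        ∑ V ∈ noRow Y x, w ^ V.card * (if ∃ ψ, a ≤ p x ψ V then (1 : ℝ) else 0) := by
      rw [noRow, Finset.sum_filter]
      refine Finset.sum_congr rfl fun W _ => ?_
      by_cases h1 : ∀ y, (x, y) ∉ W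
      · simp [h1]
      · simp [h1]
    rw [h0]
    have hV : ∀ V ∈ noRow Y x, w ^ V.card * (if ∃ ψ, a ≤ p x ψ V then (1 : ℝ) else 0) ≤
        1 / Z * (∑ U : Finset Y, w ^ (addRow V x U).card * B (addRow V x U)) +
          1 / Z * (w ^ V.card * (1 + η / (a - b) ^ 2 * Z)) := by
      intro V hV
      have hrhs : 0 ≤ 1 / Z * (∑ U : Finset Y, w ^ (addRow V x U).card * B (addRow V x U)) +
          1 / Z * (w ^ V.card * (1 + η / (a - b) ^ 2 * Z)) := by
        have : 0 ≤ ∑ U : Finset Y, w ^ (addRow V x U).card * B (addRow V x U) :=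
          Finset.sum_nonneg fun U _ => mul_nonneg (by positivity) (hB0 _)
        positivity
      by_cases hcase : ∃ ψ, a ≤ p x ψ V
      · rw [if_pos hcase, mul_one]
        obtain ⟨ψ, hψ⟩ := hcase
        have hU : ∀ U : Finset Y, w ^ V.card * w ^ U.card ≤
            w ^ (addRow V x U).card * B (addRow V x U) +
              w ^ V.card * ((if U = ∅ then (1 : ℝ) else 0) +
                1 / (a - b) ^ 2 * (w ^ U.card * (p x ψ (addRow V x U) - p x ψ V) ^ 2)) := by
          intro U
          have hnn : 0 ≤ 1 / (a - b) ^ 2 *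
              (w ^ U.card * (p x ψ (addRow V x U) - p x ψ V) ^ 2) := by positivity
          have hnn2 : 0 ≤ w ^ (addRow V x U).card * B (addRow V x U) :=
            mul_nonneg (by positivity) (hB0 _)
          by_cases hU : U = ∅
          · rw [if_pos hU]
            have : w ^ V.card * w ^ U.card = w ^ V.card := by rw [hU]; simp
            rw [this]
            have h1 : w ^ V.card * 1 ≤ w ^ V.card * (1 + 1 / (a - b) ^ 2 *
                (w ^ U.card * (p x ψ (addRow V x U) - p x ψ V) ^ 2)) :=
              mul_le_mul_of_nonneg_left (by linarith) (by positivity)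
            linarith
          · rw [if_neg hU, zero_add]
            by_cases hb : b < p x ψ (addRow V x U)
            · have hBU : B (addRow V x U) = 1 := by
                simp only [hB]
                rw [if_pos]
                obtain ⟨y, hy⟩ := Finset.nonempty_iff_ne_empty.2 hU
                exact ⟨x, ⟨y, mem_addRow.2 (Or.inr ⟨rfl, hy⟩)⟩, ψ, hb⟩
              rw [hBU, mul_one, card_addRow hV, pow_add]
              have : 0 ≤ w ^ V.card * (1 / (a - b) ^ 2 *
                (w ^ U.card * (p x ψ (addRow V x U) - p x ψ V) ^ 2)) := by positivity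
              linarith
            · push Not at hb
              have h2 : (a - b) ^ 2 ≤ (p x ψ (addRow V x U) - p x ψ V) ^ 2 := by
                nlinarith
              have h3 : w ^ U.card ≤ 1 / (a - b) ^ 2 *
                  (w ^ U.card * (p x ψ (addRow V x U) - p x ψ V) ^ 2) := by
                rw [one_div, inv_mul_eq_div, le_div_iff₀ hγ]
                exact mul_le_mul_of_nonneg_left h2 (by positivity)
              have h4 : w ^ V.card * w ^ U.card ≤ w ^ V.card * (1 / (a - b) ^ 2 *
                  (w ^ U.card * (p x ψ (addRow V x U) - p x ψ V) ^ 2)) :=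
                mul_le_mul_of_nonneg_left h3 (by positivity)
              linarith
        have hsum : w ^ V.card * Z ≤
            (∑ U : Finset Y, w ^ (addRow V x U).card * B (addRow V x U)) +
              w ^ V.card * (1 + η / (a - b) ^ 2 * Z) := by
          calc w ^ V.card * Z = ∑ U : Finset Y, w ^ V.card * w ^ U.card := by
                rw [← Finset.mul_sum, sum_pow_card']
            _ ≤ ∑ U : Finset Y, (w ^ (addRow V x U).card * B (addRow V x U) +
                w ^ V.card * ((if U = ∅ then (1 : ℝ) else 0) +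
                1 / (a - b) ^ 2 * (w ^ U.card * (p x ψ (addRow V x U) - p x ψ V) ^ 2))) :=
                Finset.sum_le_sum fun U _ => hU U
            _ = (∑ U : Finset Y, w ^ (addRow V x U).card * B (addRow V x U)) +
                w ^ V.card * (1 + 1 / (a - b) ^ 2 *
                  ∑ U : Finset Y, w ^ U.card * (p x ψ (addRow V x U) - p x ψ V) ^ 2) := by
                rw [Finset.sum_add_distrib, ← Finset.mul_sum, Finset.sum_add_distrib,
                  ← Finset.mul_sum]
                simp
            _ ≤ _ := by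
                have h5 := mul_le_mul_of_nonneg_left (hplant x ψ V hV)
                  (by positivity : 0 ≤ 1 / (a - b) ^ 2)
                have h6 : 1 / (a - b) ^ 2 * (η * Z) = η / (a - b) ^ 2 * Z := by ring
                rw [h6] at h5
                have h7 : w ^ V.card * (1 + 1 / (a - b) ^ 2 *
                  ∑ U : Finset Y, w ^ U.card * (p x ψ (addRow V x U) - p x ψ V) ^ 2) ≤
                  w ^ V.card * (1 + η / (a - b) ^ 2 * Z) :=
                  mul_le_mul_of_nonneg_left (by linarith) (by positivity)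
                linarith
        calc w ^ V.card = 1 / Z * (w ^ V.card * Z) := by field_simp
          _ ≤ 1 / Z * ((∑ U : Finset Y, w ^ (addRow V x U).card * B (addRow V x U)) +
              w ^ V.card * (1 + η / (a - b) ^ 2 * Z)) :=
              mul_le_mul_of_nonneg_left hsum (by positivity)
          _ = _ := by ring
      · rw [if_neg hcase, mul_zero]
        exact hrhs
    calc ∑ V ∈ noRow Y x, w ^ V.card * (if ∃ ψ, a ≤ p x ψ V then (1 : ℝ) else 0)
        ≤ ∑ V ∈ noRow Y x, (1 / Z *
          (∑ U : Finset Y, w ^ (addRow V x U).card * B (addRow V x U)) +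
          1 / Z * (w ^ V.card * (1 + η / (a - b) ^ 2 * Z))) := Finset.sum_le_sum hV
      _ = 1 / Z * (∑ V ∈ noRow Y x,
          ∑ U : Finset Y, w ^ (addRow V x U).card * B (addRow V x U)) +
          1 / Z * ((1 + η / (a - b) ^ 2 * Z) * ∑ V ∈ noRow Y x, w ^ V.card) := by
          rw [Finset.sum_add_distrib, Finset.mul_sum, Finset.mul_sum, Finset.mul_sum]
          congr 1
          refine Finset.sum_congr rfl fun V _ => ?_
          ring
      _ = _ := by
          rw [← sum_rows x (fun W => w ^ W.card * B W), sum_noRow hw, ← hZ, ← hZt]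
          congr 1
          field_simp
  calc ∑ W : Finset (X × Y), w ^ W.card *
      (if ∃ x, (∀ y, (x, y) ∉ W) ∧ ∃ ψ, a ≤ p x ψ W then (1 : ℝ) else 0)
      ≤ ∑ W : Finset (X × Y), w ^ W.card *
        ∑ x, (if (∀ y, (x, y) ∉ W) ∧ ∃ ψ, a ≤ p x ψ W then (1 : ℝ) else 0) :=
        Finset.sum_le_sum fun W _ => mul_le_mul_of_nonneg_left (hstep1 W) (by positivity)
    _ = ∑ x, ∑ W : Finset (X × Y), w ^ W.card *
        (if (∀ y, (x, y) ∉ W) ∧ ∃ ψ, a ≤ p x ψ W then (1 : ℝ) else 0) := by
        simp only [Finset.mul_sum]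
        exact Finset.sum_comm
    _ ≤ ∑ _x : X, (1 / Z * ∑ W : Finset (X × Y), w ^ W.card * B W +
        1 / Z * (1 / Z + η / (a - b) ^ 2) * Zt) := Finset.sum_le_sum fun x _ => hx x
    _ = _ := by
        rw [Finset.sum_const, Finset.card_univ, nsmul_eq_mul]
        ring

end

end Pool.Agent.H17.QM
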