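import Pool.Agent.H17.QM.Defs

/-!
# Quantum verifiers and the witness languages of a random oracle: definitions
-/

set_option autoImplicit false

namespace Pool.Agent.H17.QM

/-- A quantum verifier: a quantum query algorithm whose initial state (the witness together with
the work qubits) may be any vector of a set `wit` of unit vectors. -/
structure QVer (κ : Type) where
  /-- dimension of the state space -/
  dim : ℕ
  /-- the query made by each basis state -/
  query : Fin dim → Option κ
  /-- number of queries -/
  T : ℕ
  /-- the unitaries between the queries -/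
  U : ℕ → (EuclideanSpace ℂ (Fin dim) ≃ₗᵢ[ℂ] EuclideanSpace ℂ (Fin dim))
  /-- the admissible initial states -/
  wit : Set (EuclideanSpace ℂ (Fin dim))
  norm_wit : ∀ ψ ∈ wit, ‖ψ‖ = 1
  /-- the accepting basis states -/
  acc : Finset (Fin dim)

namespace QVer

variable {κ : Type} (V : QVer κ)

/-- The query algorithm with initial state `ψ`. -/
def alg (ψ : V.wit) : QAlg κ where
  dim := V.dim
  query := V.query
  T := V.T
  U := V.U
  init := ψ
  norm_init := V.norm_wit ψ ψ.2
  acc := V.acc

/-- Some admissible initial state is accepted with probability at least `α`. -/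
def Accepts (ph : κ → ℂ) (α : ℝ) : Prop := ∃ ψ : V.wit, α ≤ (V.alg ψ).prob ph

/-- Every admissible initial state is accepted with probability at most `β`. -/
def Below (ph : κ → ℂ) (β : ℝ) : Prop := ∀ ψ : V.wit, (V.alg ψ).prob ph ≤ β

end QVer

/-- On inputs of length `n` the verifiers make at most `C * 2 ^ t n` queries, each of length at
most `C * 2 ^ t n`, for some constant `C`. -/
def Bounded (t : ℕ → ℕ) (M : List Bool → QVer (List Bool)) : Prop :=
  ∃ C : ℕ, ∀ x, (M x).T ≤ C * 2 ^ t x.length ∧
    ∀ i s, (M x).query i = some s → s.length ≤ C * 2 ^ t x.length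

/-- The lengths `lev t 0 < lev t 1 < …` of the strings that can be members. -/
def lev (t : ℕ → ℕ) : ℕ → ℕ
  | 0 => 1
  | k + 1 => 2 ^ (t (lev t k) + lev t k + k)

/-- The number of queries that check a witness for an input of length `n`. -/
def chk (t : ℕ → ℕ) (n : ℕ) : ℕ := 2 * t n + 2 * n + 2

/-- `y` is a witness for `x` (with `num k` possible witnesses if `|x| = lev t k`): `y` is among
the first `num k` strings and the oracle contains all the strings `code x y i`, `i < chk t |x|`. -/
def Wit (t num : ℕ → ℕ) (A : List Bool → Bool) (x y : List Bool) : Prop :=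
  ∃ k, x.length = lev t k ∧ rk y < num k ∧ ∀ i < chk t x.length, A (code x y i) = true

/-- The number of possible witnesses for the `NP` language at level `k`. -/
def npnum (t : ℕ → ℕ) (k : ℕ) : ℕ := 2 ^ (chk t (lev t k) - lev t k) / (k + 1)

/-- The `NP^A` language: the strings with a witness. -/
def nplang (t : ℕ → ℕ) (A : List Bool → Bool) : Set (List Bool) :=
  {x | ∃ y, Wit t (npnum t) A x y}

/-- The number of possible witnesses for the `coNP` language at level `k`. -/
noncomputable def conum (t : ℕ → ℕ) (k : ℕ) : ℕ :=
  ⌊(2 : ℝ) ^ chk t (lev t k) * Real.log (2 ^ lev t k * (k + 1))⌋₊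

/-- The `coNP^A` language: the strings of length `lev t k` for some `k` without a witness. -/
def conplang (t : ℕ → ℕ) (A : List Bool → Bool) : Set (List Bool) :=
  {x | (∃ k, x.length = lev t k) ∧ ¬ ∃ y, Wit t (conum t) A x y}

end Pool.Agent.H17.QM
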