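import Pool.Agent.H17.QV.Num

/-!
# The two languages are infinite; uniqueness of witnesses
-/

set_option autoImplicit false

namespace Pool.Agent.H17.QM

open MeasureTheory Filter Topology

variable {t num : ℕ → ℕ}

theorem infinite_of_indep {L : (List Bool → Bool) → Set (List Bool)} {δ : ℕ → ℝ} {c : ℝ}
    (hc : 0 < c) (hδ : ∀ k : ℕ, c / (2 ^ lev t k * ((k : ℝ) + 1)) ≤ δ k)
    (hδ1 : ∀ k, δ k ≤ 1)
    (hLm : ∀ x, MeasurableSet {A : List Bool → Bool | x ∈ L A})
    (hloc : ∀ k x x' ω g, x.length = lev t k → x' ≠ x →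
      (x' ∈ L (fill (xb t num k x) ω g) ↔ x' ∈ L ω))
    (hprob : ∀ k x, x.length = lev t k → ∀ σ : Set (List Bool → Bool), MeasurableSet σ →
      (∀ ω g, fill (xb t num k x) ω g ∈ σ ↔ ω ∈ σ) →
      (coins (List Bool)).real (σ ∩ {A | x ∉ L A}) = (1 - δ k) * (coins (List Bool)).real σ) :
    ∀ᵐ A ∂(coins (List Bool)), (L A).Infinite := by
  classical
  set Q : ℕ → ℕ → Set (List Bool → Bool) := fun a b =>
    ⋂ k ∈ Finset.Ico a b, ⋂ v : Fin (lev t k) → Bool, {A | List.ofFn v ∉ L A} with hQ
  have hQm : ∀ a b, MeasurableSet (Q a b) := fun a b =>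
    Finset.measurableSet_biInter _ fun k _ => MeasurableSet.iInter fun v => (hLm _).compl
  have hQmem : ∀ {a b A}, A ∈ Q a b ↔ ∀ k, a ≤ k → k < b → ∀ v : Fin (lev t k) → Bool,
      List.ofFn v ∉ L A := by
    intro a b A
    simp only [hQ, Set.mem_iInter, Finset.mem_Ico, and_imp, Set.mem_ofPred_eq]
  -- one level
  have hinner : ∀ a b (G : Finset (Fin (lev t b) → Bool)),
      (coins (List Bool)).real (Q a b ∩ {A | ∀ v ∈ G, List.ofFn v ∉ L A}) =
        (1 - δ b) ^ G.card * (coins (List Bool)).real (Q a b) := by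
    intro a b G
    induction G using Finset.induction_on with
    | empty => simp
    | insert v G hv ih =>
      have hGm : MeasurableSet {A : List Bool → Bool | ∀ v ∈ G, List.ofFn v ∉ L A} := by
        have : {A : List Bool → Bool | ∀ v ∈ G, List.ofFn v ∉ L A} =
            ⋂ v ∈ G, {A | List.ofFn v ∉ L A} := by
          ext A; simp
        rw [this]
        exact Finset.measurableSet_biInter _ fun v _ => (hLm _).compl
      have e1 : Q a b ∩ {A | ∀ v' ∈ insert v G, List.ofFn v' ∉ L A} =
          (Q a b ∩ {A | ∀ v ∈ G, List.ofFn v ∉ L A}) ∩ {A | List.ofFn v ∉ L A} := by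
        ext A
        simp only [Set.mem_inter_iff, Set.mem_ofPred_eq, Finset.mem_insert, forall_eq_or_imp]
        tauto
      rw [e1, hprob b (List.ofFn v) (by rw [List.length_ofFn]) _ ((hQm a b).inter hGm), ih,
        Finset.card_insert_of_notMem hv, pow_succ]
      · ring
      · intro ω g
        have h1 : ∀ x', x' ≠ List.ofFn v →
            (x' ∈ L (fill (xb t num b (List.ofFn v)) ω g) ↔ x' ∈ L ω) := fun x' hx' =>
          hloc b (List.ofFn v) x' ω g (by rw [List.length_ofFn]) hx'
        rw [Set.mem_inter_iff, Set.mem_inter_iff, hQmem, hQmem]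
        refine and_congr ?_ ?_
        · refine forall_congr' fun k => forall_congr' fun _ => forall_congr' fun hk =>
            forall_congr' fun v' => not_congr (h1 _ ?_)
          intro h2
          have h3 := congrArg List.length h2
          rw [List.length_ofFn, List.length_ofFn] at h3
          exact absurd (lev_injective t h3) (by omega)
        · refine forall_congr' fun v' => forall_congr' fun hv' => not_congr (h1 _ ?_)
          intro h2
          rw [List.ofFn_injective h2] at hv'
          exact hv hv'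
  have hstep : ∀ a b, a ≤ b → (coins (List Bool)).real (Q a (b + 1)) ≤
      Real.exp (-(c / ((b : ℝ) + 1))) * (coins (List Bool)).real (Q a b) := by
    intro a b hab
    have e1 : Q a (b + 1) = Q a b ∩ {A | ∀ v ∈ (Finset.univ : Finset (Fin (lev t b) → Bool)),
        List.ofFn v ∉ L A} := by
      ext A
      rw [Set.mem_inter_iff, hQmem, hQmem]
      constructor
      · intro h
        exact ⟨fun k h1 h2 => h k h1 (by omega), fun v _ => h b hab (by omega) v⟩
      · rintro ⟨h1, h2⟩ k h3 h4 v
        rcases Nat.lt_succ_iff_lt_or_eq.1 h4 with h5 | h5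
        · exact h1 k h3 h5 v
        · subst h5
          exact h2 v (Finset.mem_univ _)
    rw [e1, hinner]
    refine mul_le_mul_of_nonneg_right ?_ measureReal_nonneg
    have hcard : (Finset.univ : Finset (Fin (lev t b) → Bool)).card = 2 ^ lev t b := by simp
    rw [hcard]
    have h1 := hδ b
    have hd1 := hδ1 b
    have hb : (0 : ℝ) < (b : ℝ) + 1 := by positivity
    have h2 : 1 - δ b ≤ Real.exp (-(c / (2 ^ lev t b * ((b : ℝ) + 1)))) := by
      have := Real.add_one_le_exp (-(c / (2 ^ lev t b * ((b : ℝ) + 1))))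
      linarith
    calc (1 - δ b) ^ 2 ^ lev t b
        ≤ Real.exp (-(c / (2 ^ lev t b * ((b : ℝ) + 1)))) ^ 2 ^ lev t b :=
          pow_le_pow_left₀ (by linarith) h2 _
      _ = Real.exp (-(c / ((b : ℝ) + 1))) := by
          rw [← Real.exp_nat_mul]
          congr 1
          push_cast
          field_simp
  have hbound : ∀ a m, (coins (List Bool)).real (Q a (a + m)) ≤
      Real.exp (-(c * ∑ i ∈ Finset.range m, 1 / (((a + i : ℕ) : ℝ) + 1))) := by
    intro a m
    induction m with
    | zero => simp [measureReal_le_one]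
    | succ m ih =>
      have h1 := hstep a (a + m) (by omega)
      rw [Finset.sum_range_succ]
      calc (coins (List Bool)).real (Q a (a + (m + 1)))
          ≤ Real.exp (-(c / (((a + m : ℕ) : ℝ) + 1))) *
            (coins (List Bool)).real (Q a (a + m)) := h1
        _ ≤ Real.exp (-(c / (((a + m : ℕ) : ℝ) + 1))) *
            Real.exp (-(c * ∑ i ∈ Finset.range m, 1 / (((a + i : ℕ) : ℝ) + 1))) :=
            mul_le_mul_of_nonneg_left ih (Real.exp_pos _).le
        _ = _ := by
            rw [← Real.exp_add]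
            congr 1
            ring
  have hdiv : ∀ a : ℕ, Tendsto (fun m => ∑ i ∈ Finset.range m, 1 / (((a + i : ℕ) : ℝ) + 1))
      atTop atTop := by
    intro a
    have h1 := Real.tendsto_sum_range_one_div_nat_succ_atTop
    have h2 : ∀ m, (∑ i ∈ Finset.range m, 1 / (((a + i : ℕ) : ℝ) + 1)) =
        (∑ i ∈ Finset.range (a + m), 1 / ((i : ℝ) + 1)) -
          ∑ i ∈ Finset.range a, 1 / ((i : ℝ) + 1) := by
      intro m
      rw [Finset.sum_range_add]
      ring
    simp only [h2]
    have h3 := h1.comp (tendsto_add_atTop_nat a)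
    have h4 : (fun m => ∑ i ∈ Finset.range (a + m), 1 / ((i : ℝ) + 1)) =
        (fun n => ∑ i ∈ Finset.range n, 1 / ((i : ℝ) + 1)) ∘ fun m => m + a := by
      funext m
      simp [add_comm]
    have h5 : Tendsto (fun m => ∑ i ∈ Finset.range (a + m), 1 / ((i : ℝ) + 1)) atTop atTop := by
      rw [h4]; exact h3
    exact tendsto_atTop_add_const_right _ _ h5
  have hzero : ∀ a, (coins (List Bool)) (⋂ m, Q a (a + m)) = 0 := by
    intro a
    have h1 : Tendsto (fun m => Real.exp (-(c * ∑ i ∈ Finset.range m,
        1 / (((a + i : ℕ) : ℝ) + 1)))) atTop (𝓝 0) := by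
      refine Real.tendsto_exp_neg_atTop_nhds_zero.comp ?_
      exact (hdiv a).const_mul_atTop hc
    have h2 : (coins (List Bool)).real (⋂ m, Q a (a + m)) ≤ 0 := by
      refine ge_of_tendsto h1 (Eventually.of_forall fun m => ?_)
      refine le_trans ?_ (hbound a m)
      exact measureReal_mono (Set.iInter_subset _ m)
    have h3 := le_antisymm h2 measureReal_nonneg
    rwa [measureReal_eq_zero_iff] at h3
  have hall : ∀ᵐ A ∂(coins (List Bool)), ∀ a, A ∉ ⋂ m, Q a (a + m) := by
    rw [ae_all_iff]
    intro a
    exact measure_eq_zero_iff_ae_notMem.1 (hzero a)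
  filter_upwards [hall] with A hA
  intro hfin
  obtain ⟨a, ha⟩ : ∃ a : ℕ, ∀ x ∈ L A, x.length < a := by
    obtain ⟨a, h⟩ := (hfin.image List.length).bddAbove
    exact ⟨a + 1, fun x hx => Nat.lt_succ_of_le (h ⟨x, hx, rfl⟩)⟩
  refine hA a (Set.mem_iInter.2 fun m => hQmem.2 fun k hk _ v hv => ?_)
  have h1 := ha _ hv
  rw [List.length_ofFn] at h1
  have h2 := succ_le_lev t k
  omega

theorem nplang_infinite (t : ℕ → ℕ) : ∀ᵐ A ∂(coins (List Bool)), (nplang t A).Infinite := by
  refine infinite_of_indep (t := t) (num := npnum t) (L := nplang t)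
    (δ := fun k => 1 - 1 / Zk t (npnum t) k) (c := 1 / 4) (by norm_num) (fun k => ?_)
    (fun k => ?_) (fun x => measurableSet_wit t (npnum t) x) (fun k x x' ω g hx hne => ?_)
    (fun k x hx σ hσ hσ' => ?_)
  · refine le_trans (le_of_eq ?_) (np_lower t k)
    field_simp
  · have := Zk_pos t (npnum t) k
    have : 0 < 1 / Zk t (npnum t) k := by positivity
    linarith
  · unfold nplang
    simp only [Set.mem_ofPred_eq, wit_fill_xb_ne hne]
  · have h1 := prob_nowit (t := t) (num := npnum t) hx hσ hσ'
    have e : (1 - (1 - 1 / Zk t (npnum t) k)) = 1 / Zk t (npnum t) k := by ring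
    rw [e, ← h1]
    rfl

theorem conplang_infinite (t : ℕ → ℕ) :
    ∀ᵐ A ∂(coins (List Bool)), (conplang t A).Infinite := by
  have hm : ∀ x, MeasurableSet {A : List Bool → Bool | x ∈ conplang t A} := by
    intro x
    have : {A : List Bool → Bool | x ∈ conplang t A} =
        {_A | ∃ k, x.length = lev t k} ∩ {A | ∃ y, Wit t (conum t) A x y}ᶜ := rfl
    rw [this]
    exact (MeasurableSet.const _).inter (measurableSet_wit t (conum t) x).compl
  refine infinite_of_indep (t := t) (num := conum t) (L := conplang t)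
    (δ := fun k => 1 / Zk t (conum t) k) (c := 1 / 3) (by norm_num) (fun k => ?_)
    (fun k => ?_) hm (fun k x x' ω g hx hne => ?_)
    (fun k x hx σ hσ hσ' => ?_)
  · refine le_trans (le_of_eq ?_) (co_lower t k)
    field_simp
  · have h1 := Zk_pos t (conum t) k
    rw [div_le_one h1]
    exact one_le_Zk t (conum t) k
  · unfold conplang
    simp only [Set.mem_ofPred_eq, wit_fill_xb_ne hne]
  · have h1 := prob_nowit (t := t) (num := conum t) hx hσ hσ'
    have h2 := measureReal_inter_add_sdiff (μ := coins (List Bool)) (s := σ) (hm x)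
    have e1 : σ ∩ {A | x ∈ conplang t A} = σ ∩ {ω | ¬ ∃ y, Wit t (conum t) ω x y} := by
      ext A
      simp only [conplang, Set.mem_inter_iff, Set.mem_ofPred_eq]
      constructor
      · rintro ⟨h3, -, h4⟩; exact ⟨h3, h4⟩
      · rintro ⟨h3, h4⟩; exact ⟨h3, ⟨k, hx⟩, h4⟩
    rw [e1, h1] at h2
    have e2 : σ ∩ {A | x ∉ conplang t A} = σ \ {A | x ∈ conplang t A} := rfl
    rw [e2]
    linarith

/-! ### Uniqueness of witnesses -/

lemma measureReal_all_true (F : Finset (List Bool)) :
    (coins (List Bool)).real {A | ∀ s ∈ F, A s = true} = (1 / 2) ^ F.card := by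
  have e : {A : List Bool → Bool | ∀ s ∈ F, A s = true} = Set.pi F fun _ => {true} := by
    ext A
    simp [Set.mem_pi]
  rw [e, measureReal_def, coins, Measure.infinitePi_pi _ fun _ _ => measurableSet_singleton _]
  have h1 : unif Bool {true} = 1 / 2 := by
    rw [unif, PMF.toMeasure_apply_singleton _ _ (measurableSet_singleton _)]
    simp
  simp [h1]

/-- Almost surely only finitely many strings have more than one witness. -/
theorem unique_witness (t : ℕ → ℕ) : ∀ᵐ A ∂(coins (List Bool)),
    {x | ∃ y y', y ≠ y' ∧ Wit t (npnum t) A x y ∧ Wit t (npnum t) A x y'}.Finite := by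
  classical
  set D : ℕ → Set (List Bool → Bool) := fun k => {A | ∃ v : Fin (lev t k) → Bool,
    ∃ y y', y ≠ y' ∧ Wit t (npnum t) A (List.ofFn v) y ∧
      Wit t (npnum t) A (List.ofFn v) y'} with hD
  have hsub : ∀ k, D k ⊆ ⋃ q : (Fin (lev t k) → Bool) × Fin (npnum t k) × Fin (npnum t k),
      {A | q.2.1 ≠ q.2.2 ∧ ∀ s ∈ ((Finset.univ : Finset (Fin (chk t (lev t k)))).image fun i =>
        bl t (npnum t) k ((q.1, q.2.1), i)) ∪
          ((Finset.univ : Finset (Fin (chk t (lev t k)))).image fun i =>
        bl t (npnum t) k ((q.1, q.2.2), i)), A s = true} := by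
    rintro k A ⟨v, y, y', hne, h1, h2⟩
    rw [wit_ofFn] at h1 h2
    rw [Set.mem_iUnion]
    refine ⟨(v, ⟨rk y, h1.1⟩, ⟨rk y', h2.1⟩), ?_, ?_⟩
    · intro h
      exact hne (rk_injective (Fin.mk.inj h))
    · intro s hs
      rw [Finset.mem_union, Finset.mem_image, Finset.mem_image] at hs
      rcases hs with ⟨i, -, rfl⟩ | ⟨i, -, rfl⟩
      · rw [bl, str_rk]; exact h1.2 i i.2
      · rw [bl, str_rk]; exact h2.2 i i.2
  have hpair : ∀ (k : ℕ) (q : (Fin (lev t k) → Bool) × Fin (npnum t k) × Fin (npnum t k)),
      (coins (List Bool)) {A | q.2.1 ≠ q.2.2 ∧ ∀ s ∈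
        ((Finset.univ : Finset (Fin (chk t (lev t k)))).image fun i =>
        bl t (npnum t) k ((q.1, q.2.1), i)) ∪
          ((Finset.univ : Finset (Fin (chk t (lev t k)))).image fun i =>
        bl t (npnum t) k ((q.1, q.2.2), i)), A s = true} ≤
      ENNReal.ofReal ((1 / 2) ^ (2 * chk t (lev t k))) := by
    intro k q
    by_cases hq : q.2.1 = q.2.2
    · have : {A : List Bool → Bool | q.2.1 ≠ q.2.2 ∧ ∀ s ∈
        ((Finset.univ : Finset (Fin (chk t (lev t k)))).image fun i =>
        bl t (npnum t) k ((q.1, q.2.1), i)) ∪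
          ((Finset.univ : Finset (Fin (chk t (lev t k)))).image fun i =>
        bl t (npnum t) k ((q.1, q.2.2), i)), A s = true} = ∅ := by
        ext A
        simp [hq]
      rw [this]
      simp
    · set F : Finset (List Bool) :=
        ((Finset.univ : Finset (Fin (chk t (lev t k)))).image fun i =>
        bl t (npnum t) k ((q.1, q.2.1), i)) ∪
          ((Finset.univ : Finset (Fin (chk t (lev t k)))).image fun i =>
        bl t (npnum t) k ((q.1, q.2.2), i)) with hF
      have hinj := bl_injective t (npnum t) k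
      have hcard : F.card = 2 * chk t (lev t k) := by
        rw [hF, Finset.card_union_of_disjoint, Finset.card_image_of_injective,
          Finset.card_image_of_injective, Finset.card_univ, Fintype.card_fin]
        · ring
        · intro i i' h
          have := hinj h
          simpa using this
        · intro i i' h
          have := hinj h
          simpa using this
        · rw [Finset.disjoint_left]
          intro s h1 h2
          rw [Finset.mem_image] at h1 h2
          obtain ⟨i, -, rfl⟩ := h1
          obtain ⟨i', -, h3⟩ := h2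
          have := hinj h3
          simp only [Prod.mk.injEq, true_and] at this
          exact hq this.1.symm
      have h1 := measureReal_all_true F
      rw [hcard] at h1
      rw [← h1, measureReal_def, ENNReal.ofReal_toReal (measure_ne_top _ _)]
      exact measure_mono fun A hA => hA.2
  have hDk : ∀ k, (coins (List Bool)) (D k) ≤ ENNReal.ofReal ((1 / 2) ^ k) := by
    intro k
    refine (measure_mono (hsub k)).trans ((measure_iUnion_fintype_le _ _).trans ?_)
    refine (Finset.sum_le_sum fun q _ => hpair k q).trans ?_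
    rw [Finset.sum_const, Finset.card_univ, nsmul_eq_mul, ← ENNReal.ofReal_natCast,
      ← ENNReal.ofReal_mul (Nat.cast_nonneg _)]
    refine ENNReal.ofReal_le_ofReal ?_
    have hc : (Fintype.card ((Fin (lev t k) → Bool) × Fin (npnum t k) × Fin (npnum t k)) : ℝ) =
        2 ^ lev t k * ((npnum t k : ℝ) * npnum t k) := by
      simp
    rw [hc]
    set b : ℝ := 2 ^ (chk t (lev t k) - lev t k) with hb
    have hN : (npnum t k : ℝ) ≤ b := by
      have h1 := (npnum_bounds t k).2
      refine h1.trans (div_le_self (by positivity) ?_)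
      linarith [Nat.cast_nonneg (α := ℝ) k]
    have hb0 : 0 < b := by positivity
    have hpow := pow_chk t k
    rw [← hb] at hpow
    calc 2 ^ lev t k * ((npnum t k : ℝ) * npnum t k) * (1 / 2) ^ (2 * chk t (lev t k))
        ≤ 2 ^ lev t k * (b * b) * (1 / 2) ^ (2 * chk t (lev t k)) := by gcongr
      _ = 1 / 2 ^ lev t k := by
          rw [one_div_pow, mul_comm 2 (chk t (lev t k)), pow_mul, hpow]
          field_simp
      _ ≤ (1 / 2) ^ k := by
          rw [one_div_pow]
          refine one_div_le_one_div_of_le (by positivity) ?_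
          refine pow_le_pow_right₀ (by norm_num) ?_
          have := succ_le_lev t k
          omega
  have hev : ∀ᵐ A ∂(coins (List Bool)), ∀ᶠ k in atTop, A ∉ D k := by
    refine ae_eventually_notMem ?_
    refine ne_top_of_le_ne_top ?_ (ENNReal.tsum_le_tsum hDk)
    rw [← ENNReal.ofReal_tsum_of_nonneg (fun k => by positivity)
      (summable_geometric_of_lt_one (by norm_num) (by norm_num))]
    exact ENNReal.ofReal_ne_top
  filter_upwards [hev] with A hA
  obtain ⟨K, hK⟩ := eventually_atTop.1 hA
  refine (List.finite_length_lt Bool (lev t K)).subset ?_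
  rintro x ⟨y, y', hne, h1, h2⟩
  obtain ⟨k, hk, -⟩ := id h1
  by_contra hlt
  have hlt' : lev t K ≤ x.length := by simpa using hlt
  have hKk : K ≤ k := by
    rw [hk] at hlt'
    exact (lev_strictMono t).le_iff_le.1 hlt'
  refine hK k hKk ?_
  have hx : ∃ v : Fin (lev t k) → Bool, List.ofFn v = x := by
    refine ⟨fun i => x.get (i.cast hk.symm), ?_⟩
    apply List.ext_get
    · simp [hk]
    · intro n h3 h4
      simp
  obtain ⟨v, rfl⟩ := hx
  exact ⟨v, y, y', hne, h1, h2⟩

end Pool.Agent.H17.QM
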