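import Pool.Agent.H17.QV.Seq
import Pool.Agent.H17.QV.Inf

/-!
# The immunity theorems for the sparse languages
-/

set_option autoImplicit false

namespace Pool.Agent.H17.QM

open MeasureTheory Filter Topology

variable {t : ℕ → ℕ}

lemma accepts_fill {num : ℕ → ℕ} {k : ℕ} {V : QVer (List Bool)}
    (hV : ∀ i s, V.query i = some s → s.length ≤ lev t k) (ω : List Bool → Bool)
    (h : (Fin (lev t k) → Bool) × Fin (num k) → Fin (chk t (lev t k)) → Bool) (a : ℝ) :
    V.Accepts (ph (fill (bl t num k) ω h)) a ↔ V.Accepts (ph ω) a := by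
  unfold QVer.Accepts
  simp only [prob_fill hV]

lemma below_fill {num : ℕ → ℕ} {k : ℕ} {V : QVer (List Bool)}
    (hV : ∀ i s, V.query i = some s → s.length ≤ lev t k) (ω : List Bool → Bool)
    (h : (Fin (lev t k) → Bool) × Fin (num k) → Fin (chk t (lev t k)) → Bool) (b : ℝ) :
    V.Below (ph (fill (bl t num k) ω h)) b ↔ V.Below (ph ω) b := by
  unfold QVer.Below
  simp only [prob_fill hV]

lemma query_lt {M : List Bool → QVer (List Bool)} {C : ℕ}
    (hC : ∀ x, (M x).T ≤ C * 2 ^ t x.length ∧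
      ∀ i s, (M x).query i = some s → s.length ≤ C * 2 ^ t x.length)
    {j k : ℕ} (hj : C ≤ 2 ^ j) (hjk : j < k) (v : Fin (lev t j) → Bool) :
    ∀ i s, (M (List.ofFn v)).query i = some s → s.length ≤ lev t k := by
  intro i s hs
  have h1 := (hC (List.ofFn v)).2 i s hs
  rw [List.length_ofFn] at h1
  have h2 := bound_lt_lev t hj
  have h3 : lev t (j + 1) ≤ lev t k := (lev_strictMono t).monotone hjk
  omega

lemma T_sq_wq (t : ℕ → ℕ) (k C : ℕ) :
    16 * ((C : ℝ) * 2 ^ t (lev t k)) ^ 2 * wq (Fin (chk t (lev t k)) → Bool) ≤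
      8 * (C : ℝ) ^ 2 * (1 / (2 ^ lev t k * 2 ^ lev t k)) := by
  have h1 := wq_le t k
  have h2 : (2 : ℝ) ^ chk t (lev t k) =
      4 * ((2 ^ t (lev t k)) ^ 2 * (2 ^ lev t k * 2 ^ lev t k)) := by
    rw [chk, pow_add, pow_add, pow_mul, pow_mul, ← pow_mul, ← pow_mul, mul_comm 2 (t (lev t k)),
      mul_comm 2 (lev t k), pow_mul, pow_mul]
    ring
  calc 16 * ((C : ℝ) * 2 ^ t (lev t k)) ^ 2 * wq (Fin (chk t (lev t k)) → Bool)
      ≤ 16 * ((C : ℝ) * 2 ^ t (lev t k)) ^ 2 * (2 / 2 ^ chk t (lev t k)) :=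
        mul_le_mul_of_nonneg_left h1 (by positivity)
    _ = 8 * (C : ℝ) ^ 2 * (1 / (2 ^ lev t k * 2 ^ lev t k)) := by
        rw [h2]; field_simp; ring

lemma inv_pow_lev (t : ℕ → ℕ) (k : ℕ) : (1 : ℝ) / 2 ^ lev t k ≤ (1 / 2) ^ k := by
  rw [one_div_pow]
  refine one_div_le_one_div_of_le (by positivity) (pow_le_pow_right₀ (by norm_num) ?_)
  have := succ_le_lev t k
  omega

lemma card_X (t : ℕ → ℕ) (k : ℕ) : (Fintype.card (Fin (lev t k) → Bool) : ℝ) = 2 ^ lev t k := by
  simp

lemma tendsto_div (c : ℝ) : Tendsto (fun k : ℕ => c / ((k : ℝ) + 1)) atTop (𝓝 0) :=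
  tendsto_const_nhds.div_atTop (tendsto_atTop_add_const_right _ _ tendsto_natCast_atTop_atTop)

/-! ### The `NP` side -/

/-- Soundness at level `k`. -/
def npS (t : ℕ → ℕ) (M : List Bool → QVer (List Bool)) (a : ℝ) (k : ℕ) :
    Set (List Bool → Bool) :=
  {A | ∀ v : Fin (lev t k) → Bool, List.ofFn v ∉ nplang t A → (M (List.ofFn v)).Accepts (ph A) a}

/-- A hit at level `k`. -/
def npZ (t : ℕ → ℕ) (M : List Bool → QVer (List Bool)) (b : ℝ) (k : ℕ) :
    Set (List Bool → Bool) :=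
  {A | ∃ v : Fin (lev t k) → Bool, List.ofFn v ∈ nplang t A ∧ (M (List.ofFn v)).Below (ph A) b}

lemma measurableSet_npS (M : List Bool → QVer (List Bool)) (a : ℝ) (k : ℕ) :
    MeasurableSet (npS t M a k) := by
  have : npS t M a k = ⋂ v : Fin (lev t k) → Bool, ({A | List.ofFn v ∈ nplang t A} ∪
      {A | (M (List.ofFn v)).Accepts (ph A) a}) := by
    ext A
    simp only [npS, Set.mem_ofPred_eq, Set.mem_iInter, Set.mem_union]
    refine forall_congr' fun v => ?_
    tauto
  rw [this]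
  exact MeasurableSet.iInter fun v => (measurableSet_wit t (npnum t) _).union
    (QVer.measurableSet_accepts _ _)

lemma measurableSet_npZ (M : List Bool → QVer (List Bool)) (b : ℝ) (k : ℕ) :
    MeasurableSet (npZ t M b k) := by
  have : npZ t M b k = ⋃ v : Fin (lev t k) → Bool, ({A | List.ofFn v ∈ nplang t A} ∩
      {A | (M (List.ofFn v)).Below (ph A) b}) := by
    ext A
    simp only [npZ, Set.mem_ofPred_eq, Set.mem_iUnion, Set.mem_inter_iff]
  rw [this]
  exact MeasurableSet.iUnion fun v => (measurableSet_wit t (npnum t) _).inter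
    (QVer.measurableSet_le _ _)

theorem np_levels {M : List Bool → QVer (List Bool)} (hM : Bounded t M) {a b : ℝ}
    (hab : b < a) : ∀ᵐ A ∂(coins (List Bool)),
      (∀ᶠ k in atTop, A ∈ npS t M a k) → ∀ᶠ k in atTop, A ∉ npZ t M b k := by
  classical
  obtain ⟨C, hC⟩ := hM
  obtain ⟨K, hK⟩ : ∃ K, C ≤ 2 ^ K := ⟨C, (lt_two_pow' C).le⟩
  have hγ : 0 < a - b := by linarith
  refine ae_of_levels (coins (List Bool)) (measurableSet_npS M a)
    (μ := fun k : ℕ => 4 / ((k : ℝ) + 1))
    (τ := fun k : ℕ => 8 * (C : ℝ) ^ 2 / (a - b) ^ 2 * (1 / 2) ^ k)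
    (tendsto_div 4) (fun k => by positivity)
    ((summable_geometric_of_lt_one (by norm_num) (by norm_num)).mul_left _) K
    fun k1 k hk1 hk => ?_
  set E : Set (List Bool → Bool) := ⋂ j ∈ Finset.Ico k1 k, npS t M a j with hE
  have hEm : MeasurableSet E := Finset.measurableSet_biInter _ fun j _ => measurableSet_npS M a j
  have hE' : ∀ ω h, fill (bl t (npnum t) k) ω h ∈ E ↔ ω ∈ E := by
    intro ω h
    simp only [hE, Set.mem_iInter, Finset.mem_Ico, and_imp]
    refine forall_congr' fun j => forall_congr' fun hj1 => forall_congr' fun hj2 => ?_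
    simp only [npS, Set.mem_ofPred_eq]
    refine forall_congr' fun v => ?_
    have h1 : List.ofFn v ∈ nplang t (fill (bl t (npnum t) k) ω h) ↔
        List.ofFn v ∈ nplang t ω := by
      unfold nplang
      simp only [Set.mem_ofPred_eq]
      refine exists_congr fun y => wit_fill_ne ?_ ω h y
      rw [List.length_ofFn]
      exact ((lev_strictMono t) hj2).ne
    rw [h1, accepts_fill (query_lt hC (hK.trans
      (Nat.pow_le_pow_right (by norm_num) (hk1.trans hj1))) hj2 v)]
  set T : ℝ := (C : ℝ) * 2 ^ t (lev t k) with hT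
  have hTb : ∀ v : Fin (lev t k) → Bool, ((M (List.ofFn v)).T : ℝ) ≤ T := by
    intro v
    have h1 := (hC (List.ofFn v)).1
    rw [List.length_ofFn] at h1
    rw [hT]
    exact_mod_cast h1
  set o : Fin (chk t (lev t k)) → Bool := fun _ => true with ho
  have hpt := fun ω => point_np (bl_injective t (npnum t) k)
    (fun v : Fin (lev t k) → Bool => M (List.ofFn v)) ω o (card_chk t k) hab hTb
    (Z := npZ t M b k) (S := npS t M a k)
    (fun g hg W hmem => by
      obtain ⟨v, h1, h2⟩ := hmem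
      exact ⟨v, (wit_plant v ω hg W).1 h1, h2⟩)
    (fun g hg W hmem v hv => by
      refine hmem v ?_
      intro h1
      obtain ⟨y, hy⟩ := (wit_plant v ω hg W).1 h1
      exact hv y hy)
  have h1 := level_measure (bl_injective t (npnum t) k) (measurableSet_npZ M b k)
    (measurableSet_npS M a k) hEm hE' hpt (by
      have := wq_pos' t k
      positivity)
  refine h1.trans (add_le_add ?_ ?_)
  · refine mul_le_mul_of_nonneg_right ?_ measureReal_nonneg
    rw [card_X, Fintype.card_fin, ← Zk]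
    exact np_upper t k
  · rw [card_X]
    have h2 := T_sq_wq t k C
    rw [← hT] at h2
    have h3 := inv_pow_lev t k
    calc 2 ^ lev t k * (16 * T ^ 2 * wq (Fin (chk t (lev t k)) → Bool) / (a - b) ^ 2)
        ≤ 2 ^ lev t k * (8 * (C : ℝ) ^ 2 * (1 / (2 ^ lev t k * 2 ^ lev t k)) / (a - b) ^ 2) := by
          gcongr
      _ = 8 * (C : ℝ) ^ 2 / (a - b) ^ 2 * (1 / 2 ^ lev t k) := by field_simp
      _ ≤ 8 * (C : ℝ) ^ 2 / (a - b) ^ 2 * (1 / 2) ^ k :=
          mul_le_mul_of_nonneg_left h3 (by positivity)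

lemma finite_of_eventually_ofFn {t : ℕ → ℕ} {P : List Bool → Prop}
    (hP : ∀ x, P x → ∃ k, x.length = lev t k)
    (h : ∀ᶠ k in atTop, ∀ v : Fin (lev t k) → Bool, ¬ P (List.ofFn v)) : {x | P x}.Finite := by
  obtain ⟨K, hK⟩ := eventually_atTop.1 h
  refine (List.finite_length_lt Bool (lev t K)).subset ?_
  intro x hx
  obtain ⟨k, hk⟩ := hP x hx
  by_contra hlt
  have hlt' : lev t K ≤ x.length := by simpa using hlt
  have hKk : K ≤ k := by
    rw [hk] at hlt'
    exact (lev_strictMono t).le_iff_le.1 hlt'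
  have hv : ∃ v : Fin (lev t k) → Bool, List.ofFn v = x := by
    refine ⟨fun i => x.get (i.cast hk.symm), ?_⟩
    apply List.ext_get
    · simp [hk]
    · intro n h3 h4
      simp
  obtain ⟨v, rfl⟩ := hv
  exact hK k hKk v hx

lemma eventually_ofFn_of_finite {t : ℕ → ℕ} {P : List Bool → Prop} (h : {x | P x}.Finite) :
    ∀ᶠ k in atTop, ∀ v : Fin (lev t k) → Bool, ¬ P (List.ofFn v) := by
  obtain ⟨a, ha⟩ : ∃ a : ℕ, ∀ x ∈ {x | P x}, x.length < a := by
    obtain ⟨a, h'⟩ := (h.image List.length).bddAbove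
    exact ⟨a + 1, fun x hx => Nat.lt_succ_of_le (h' ⟨x, hx, rfl⟩)⟩
  refine eventually_atTop.2 ⟨a, fun k hk v hv => ?_⟩
  have h1 := ha _ hv
  rw [List.length_ofFn] at h1
  have h2 := succ_le_lev t k
  omega

theorem np_immune (t : ℕ → ℕ) (𝓜 : Set (List Bool → QVer (List Bool))) (hc : 𝓜.Countable)
    (hB : ∀ M ∈ 𝓜, Bounded t M) :
    ∀ᵐ A ∂(coins (List Bool)), ∀ M ∈ 𝓜, ∀ α β : ℝ, β < α →
      {x | (M x).Below (ph A) β}.Infinite →
        {x | x ∉ nplang t A ∧ (M x).Below (ph A) α}.Infinite := by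
  have h : ∀ᵐ A ∂(coins (List Bool)), ∀ M ∈ 𝓜, ∀ a b : ℚ, b < a →
      (∀ᶠ k in atTop, A ∈ npS t M a k) → ∀ᶠ k in atTop, A ∉ npZ t M b k := by
    rw [ae_ball_iff hc]
    intro M hM
    rw [ae_all_iff]
    intro a
    rw [ae_all_iff]
    intro b
    by_cases hab : b < a
    · filter_upwards [np_levels (hB M hM) (a := a) (b := b) (by exact_mod_cast hab)]
        with A hA _ using hA
    · exact ae_of_all _ fun A h => absurd h hab
  filter_upwards [h] with A hA
  intro M hM α β hαβ hinf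
  by_contra hfin
  rw [Set.not_infinite] at hfin
  obtain ⟨b, hb1, hb2⟩ := exists_rat_btwn hαβ
  obtain ⟨a, ha1, ha2⟩ := exists_rat_btwn hb2
  have hab : b < a := by exact_mod_cast ha1
  have h1 := hA M hM a b hab ?_
  · have h2 : {x | x ∈ nplang t A ∧ (M x).Below (ph A) β}.Finite := by
      refine finite_of_eventually_ofFn (t := t) ?_ ?_
      · rintro x ⟨⟨y, k, hk, -⟩, -⟩
        exact ⟨k, hk⟩
      · filter_upwards [h1] with k hk v hv
        exact hk ⟨v, hv.1, fun ψ => (hv.2 ψ).trans hb1.le⟩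
    refine hinf ((hfin.union h2).subset ?_)
    intro x (hx : (M x).Below (ph A) β)
    by_cases hxL : x ∈ nplang t A
    · exact Or.inr ⟨hxL, hx⟩
    · exact Or.inl ⟨hxL, fun ψ => (hx ψ).trans hαβ.le⟩
  · filter_upwards [eventually_ofFn_of_finite (t := t) hfin] with k hk v hv
    by_contra hnot
    refine hk v ⟨hv, fun ψ => ?_⟩
    by_contra hlt
    push Not at hlt
    exact hnot ⟨ψ, (ha2.trans hlt).le⟩

/-! ### The `coNP` side -/

/-- Soundness at level `k`. -/
def coS (t : ℕ → ℕ) (M : List Bool → QVer (List Bool)) (b : ℝ) (k : ℕ) :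
    Set (List Bool → Bool) :=
  {A | ∀ v : Fin (lev t k) → Bool, List.ofFn v ∉ conplang t A →
    (M (List.ofFn v)).Below (ph A) b}

/-- A hit at level `k`. -/
def coZ (t : ℕ → ℕ) (M : List Bool → QVer (List Bool)) (a : ℝ) (k : ℕ) :
    Set (List Bool → Bool) :=
  {A | ∃ v : Fin (lev t k) → Bool, List.ofFn v ∈ conplang t A ∧
    (M (List.ofFn v)).Accepts (ph A) a}

lemma mem_conplang_ofFn {A : List Bool → Bool} {k : ℕ} (v : Fin (lev t k) → Bool) :
    List.ofFn v ∈ conplang t A ↔ ¬ ∃ y, Wit t (conum t) A (List.ofFn v) y := by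
  constructor
  · exact fun h => h.2
  · exact fun h => ⟨⟨k, by rw [List.length_ofFn]⟩, h⟩

lemma measurableSet_conplang (x : List Bool) :
    MeasurableSet {A : List Bool → Bool | x ∈ conplang t A} := by
  have : {A : List Bool → Bool | x ∈ conplang t A} =
      {_A | ∃ k, x.length = lev t k} ∩ {A | ∃ y, Wit t (conum t) A x y}ᶜ := rfl
  rw [this]
  exact (MeasurableSet.const _).inter (measurableSet_wit t (conum t) x).compl

lemma measurableSet_coS (M : List Bool → QVer (List Bool)) (b : ℝ) (k : ℕ) :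
    MeasurableSet (coS t M b k) := by
  have : coS t M b k = ⋂ v : Fin (lev t k) → Bool, ({A | List.ofFn v ∈ conplang t A} ∪
      {A | (M (List.ofFn v)).Below (ph A) b}) := by
    ext A
    simp only [coS, Set.mem_ofPred_eq, Set.mem_iInter, Set.mem_union]
    refine forall_congr' fun v => ?_
    tauto
  rw [this]
  exact MeasurableSet.iInter fun v => (measurableSet_conplang _).union
    (QVer.measurableSet_le _ _)

lemma measurableSet_coZ (M : List Bool → QVer (List Bool)) (a : ℝ) (k : ℕ) :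
    MeasurableSet (coZ t M a k) := by
  have : coZ t M a k = ⋃ v : Fin (lev t k) → Bool, ({A | List.ofFn v ∈ conplang t A} ∩
      {A | (M (List.ofFn v)).Accepts (ph A) a}) := by
    ext A
    simp only [coZ, Set.mem_ofPred_eq, Set.mem_iUnion, Set.mem_inter_iff]
  rw [this]
  exact MeasurableSet.iUnion fun v => (measurableSet_conplang _).inter
    (QVer.measurableSet_accepts _ _)

theorem co_levels {M : List Bool → QVer (List Bool)} (hM : Bounded t M) {a b : ℝ}
    (hab : b < a) : ∀ᵐ A ∂(coins (List Bool)),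
      (∀ᶠ k in atTop, A ∈ coS t M b k) → ∀ᶠ k in atTop, A ∉ coZ t M a k := by
  classical
  obtain ⟨C, hC⟩ := hM
  obtain ⟨K, hK⟩ : ∃ K, C ≤ 2 ^ K := ⟨C, (lt_two_pow' C).le⟩
  have hγ : 0 < a - b := by linarith
  refine ae_of_levels (coins (List Bool)) (measurableSet_coS M b)
    (μ := fun k : ℕ => 3 / ((k : ℝ) + 1))
    (τ := fun k : ℕ => 3 * (3 + 8 * (C : ℝ) ^ 2 / (a - b) ^ 2) * (1 / 2) ^ k)
    (tendsto_div 3) (fun k => by positivity)
    ((summable_geometric_of_lt_one (by norm_num) (by norm_num)).mul_left _) K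
    fun k1 k hk1 hk => ?_
  set E : Set (List Bool → Bool) := ⋂ j ∈ Finset.Ico k1 k, coS t M b j with hE
  have hEm : MeasurableSet E := Finset.measurableSet_biInter _ fun j _ => measurableSet_coS M b j
  have hE' : ∀ ω h, fill (bl t (conum t) k) ω h ∈ E ↔ ω ∈ E := by
    intro ω h
    simp only [hE, Set.mem_iInter, Finset.mem_Ico, and_imp]
    refine forall_congr' fun j => forall_congr' fun hj1 => forall_congr' fun hj2 => ?_
    simp only [coS, Set.mem_ofPred_eq]
    refine forall_congr' fun v => ?_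
    have h1 : List.ofFn v ∈ conplang t (fill (bl t (conum t) k) ω h) ↔
        List.ofFn v ∈ conplang t ω := by
      rw [mem_conplang_ofFn, mem_conplang_ofFn]
      refine not_congr (exists_congr fun y => wit_fill_ne ?_ ω h y)
      rw [List.length_ofFn]
      exact ((lev_strictMono t) hj2).ne
    rw [h1, below_fill (query_lt hC (hK.trans
      (Nat.pow_le_pow_right (by norm_num) (hk1.trans hj1))) hj2 v)]
  set T : ℝ := (C : ℝ) * 2 ^ t (lev t k) with hT
  have hTb : ∀ v : Fin (lev t k) → Bool, ((M (List.ofFn v)).T : ℝ) ≤ T := by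
    intro v
    have h1 := (hC (List.ofFn v)).1
    rw [List.length_ofFn] at h1
    rw [hT]
    exact_mod_cast h1
  set o : Fin (chk t (lev t k)) → Bool := fun _ => true with ho
  have hpt := fun ω => point_co (bl_injective t (conum t) k)
    (fun v : Fin (lev t k) → Bool => M (List.ofFn v)) ω o (card_chk t k) hab hTb
    (Z := coZ t M a k) (S := coS t M b k)
    (fun g hg W hmem => by
      obtain ⟨v, h1, h2⟩ := hmem
      refine ⟨v, fun y hy => ?_, h2⟩
      exact (mem_conplang_ofFn v).1 h1 ((wit_plant v ω hg W).2 ⟨y, hy⟩))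
    (fun g hg W hmem v hv => by
      refine hmem v ?_
      rw [mem_conplang_ofFn, not_not]
      exact (wit_plant v ω hg W).2 hv)
  have hZpos := Zk_pos t (conum t) k
  have h1 := level_measure (bl_injective t (conum t) k) (measurableSet_coZ M a k)
    (measurableSet_coS M b k) hEm hE' hpt (by
      have := wq_pos' t k
      positivity)
  have hk0 : (0 : ℝ) < (k : ℝ) + 1 := by positivity
  have hk1' : (1 : ℝ) ≤ (k : ℝ) + 1 := by linarith [Nat.cast_nonneg (α := ℝ) k]
  have hup := co_upper t k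
  refine h1.trans (add_le_add ?_ ?_)
  · refine mul_le_mul_of_nonneg_right ?_ measureReal_nonneg
    rw [card_X, Fintype.card_fin, ← Zk]
    exact hup
  · rw [card_X, Fintype.card_fin, ← Zk]
    have h2 := T_sq_wq t k C
    rw [← hT] at h2
    have h3 := inv_pow_lev t k
    have h2n := two_le_pow_lev t k
    have h4 : 2 ^ lev t k * (1 / Zk t (conum t) k) ≤ 3 := by
      refine hup.trans ?_
      rw [div_le_iff₀ hk0]
      linarith
    have h5 : 1 / Zk t (conum t) k ≤ 3 * (1 / 2 ^ lev t k) := by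
      have e : 1 / Zk t (conum t) k =
          1 / 2 ^ lev t k * (2 ^ lev t k * (1 / Zk t (conum t) k)) := by
        field_simp
      rw [e, mul_comm 3]
      exact mul_le_mul_of_nonneg_left h4 (by positivity)
    have h6 : 16 * T ^ 2 * wq (Fin (chk t (lev t k)) → Bool) / (a - b) ^ 2 ≤
        8 * (C : ℝ) ^ 2 / (a - b) ^ 2 * (1 / 2 ^ lev t k) := by
      calc 16 * T ^ 2 * wq (Fin (chk t (lev t k)) → Bool) / (a - b) ^ 2
          ≤ 8 * (C : ℝ) ^ 2 * (1 / (2 ^ lev t k * 2 ^ lev t k)) / (a - b) ^ 2 := by gcongr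
        _ ≤ 8 * (C : ℝ) ^ 2 * (1 / (1 * 2 ^ lev t k)) / (a - b) ^ 2 := by
            gcongr
            linarith
        _ = _ := by rw [one_mul]; ring
    calc 2 ^ lev t k * (1 / Zk t (conum t) k) * (1 / Zk t (conum t) k +
          16 * T ^ 2 * wq (Fin (chk t (lev t k)) → Bool) / (a - b) ^ 2)
        ≤ 3 * (3 * (1 / 2 ^ lev t k) + 8 * (C : ℝ) ^ 2 / (a - b) ^ 2 * (1 / 2 ^ lev t k)) := by
          refine mul_le_mul h4 (add_le_add h5 h6) ?_ (by norm_num)
          have := wq_pos' t k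
          positivity
      _ = 3 * (3 + 8 * (C : ℝ) ^ 2 / (a - b) ^ 2) * (1 / 2 ^ lev t k) := by ring
      _ ≤ 3 * (3 + 8 * (C : ℝ) ^ 2 / (a - b) ^ 2) * (1 / 2) ^ k :=
          mul_le_mul_of_nonneg_left h3 (by positivity)

theorem co_immune (t : ℕ → ℕ) (𝓜 : Set (List Bool → QVer (List Bool))) (hc : 𝓜.Countable)
    (hB : ∀ M ∈ 𝓜, Bounded t M) :
    ∀ᵐ A ∂(coins (List Bool)), ∀ M ∈ 𝓜, ∀ α β : ℝ, β < α →
      {x | (M x).Accepts (ph A) α}.Infinite →
        {x | x ∉ conplang t A ∧ (M x).Accepts (ph A) β}.Infinite := by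
  have h : ∀ᵐ A ∂(coins (List Bool)), ∀ M ∈ 𝓜, ∀ a b : ℚ, b < a →
      (∀ᶠ k in atTop, A ∈ coS t M b k) → ∀ᶠ k in atTop, A ∉ coZ t M a k := by
    rw [ae_ball_iff hc]
    intro M hM
    rw [ae_all_iff]
    intro a
    rw [ae_all_iff]
    intro b
    by_cases hab : b < a
    · filter_upwards [co_levels (hB M hM) (a := a) (b := b) (by exact_mod_cast hab)]
        with A hA _ using hA
    · exact ae_of_all _ fun A h => absurd h hab
  filter_upwards [h] with A hA
  intro M hM α β hαβ hinf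
  by_contra hfin
  rw [Set.not_infinite] at hfin
  obtain ⟨b, hb1, hb2⟩ := exists_rat_btwn hαβ
  obtain ⟨a, ha1, ha2⟩ := exists_rat_btwn hb2
  have hab : b < a := by exact_mod_cast ha1
  have h1 := hA M hM a b hab ?_
  · have h2 : {x | x ∈ conplang t A ∧ (M x).Accepts (ph A) α}.Finite := by
      refine finite_of_eventually_ofFn (t := t) ?_ ?_
      · rintro x ⟨⟨hk, -⟩, -⟩
        exact hk
      · filter_upwards [h1] with k hk v hv
        obtain ⟨ψ, hψ⟩ := hv.2
        exact hk ⟨v, hv.1, ψ, ha2.le.trans hψ⟩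
    refine hinf ((hfin.union h2).subset ?_)
    intro x (hx : (M x).Accepts (ph A) α)
    by_cases hxL : x ∈ conplang t A
    · exact Or.inr ⟨hxL, hx⟩
    · obtain ⟨ψ, hψ⟩ := hx
      exact Or.inl ⟨hxL, ψ, hαβ.le.trans hψ⟩
  · filter_upwards [eventually_ofFn_of_finite (t := t) hfin] with k hk v hv
    intro ψ
    by_contra hlt
    push Not at hlt
    exact hk v ⟨hv, ψ, (hb1.trans hlt).le⟩

end Pool.Agent.H17.QM
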