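import Pool.Agent.H17.QV.Tower

/-!
# The densities of the two languages, and their infinitude
-/

set_option autoImplicit false

namespace Pool.Agent.H17.QM

open MeasureTheory Filter Topology

variable (t : ℕ → ℕ) (k : ℕ)

/-! ### Numerical estimates -/

lemma card_chk' : (Fintype.card (Fin (chk t (lev t k)) → Bool) : ℝ) = 2 ^ chk t (lev t k) := by
  simp

lemma four_le_pow : (4 : ℝ) ≤ 2 ^ chk t (lev t k) := by
  have : (2 : ℝ) ^ 2 ≤ 2 ^ chk t (lev t k) :=
    pow_le_pow_right₀ (by norm_num) (by unfold chk; omega)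
  linarith

lemma wq_le : wq (Fin (chk t (lev t k)) → Bool) ≤ 2 / 2 ^ chk t (lev t k) := by
  have h := four_le_pow t k
  rw [wq, card_chk', div_le_div_iff₀ (by linarith) (by linarith)]
  linarith

lemma le_wq : 1 / 2 ^ chk t (lev t k) ≤ wq (Fin (chk t (lev t k)) → Bool) := by
  have h := four_le_pow t k
  rw [wq, card_chk', div_le_div_iff₀ (by linarith) (by linarith)]
  linarith

lemma wq_pos' : 0 < wq (Fin (chk t (lev t k)) → Bool) := wq_pos (card_chk t k)

lemma wq_mul : wq (Fin (chk t (lev t k)) → Bool) * 2 ^ chk t (lev t k) =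
    1 + wq (Fin (chk t (lev t k)) → Bool) := by
  have h := four_le_pow t k
  have h2 : (2 : ℝ) ^ chk t (lev t k) - 1 ≠ 0 := by linarith
  rw [wq, card_chk']
  field_simp
  ring

lemma exp_le_one_add_wq :
    Real.exp (1 / 2 ^ chk t (lev t k)) ≤ 1 + wq (Fin (chk t (lev t k)) → Bool) := by
  have h := four_le_pow t k
  have h2 : (2 : ℝ) ^ chk t (lev t k) - 1 ≠ 0 := by linarith
  set x : ℝ := 1 / 2 ^ chk t (lev t k) with hx
  have hx1 : 0 < 1 - x := by
    have : x ≤ 1 / 4 := by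
      rw [hx]
      exact one_div_le_one_div_of_le (by norm_num) h
    linarith
  have h3 : 1 + wq (Fin (chk t (lev t k)) → Bool) = 1 / (1 - x) := by
    rw [wq, card_chk', hx]
    field_simp
    ring
  rw [h3, le_div_iff₀ hx1]
  have h4 := Real.add_one_le_exp (-x)
  calc Real.exp x * (1 - x) ≤ Real.exp x * Real.exp (-x) :=
        mul_le_mul_of_nonneg_left (by linarith) (Real.exp_pos _).le
    _ = 1 := by rw [← Real.exp_add, add_neg_cancel, Real.exp_zero]

lemma pow_chk : (2 : ℝ) ^ chk t (lev t k) = 2 ^ lev t k * 2 ^ (chk t (lev t k) - lev t k) := by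
  rw [← pow_add]
  congr 1
  unfold chk
  omega

lemma npnum_bounds : 2 ^ (chk t (lev t k) - lev t k) / (2 * ((k : ℝ) + 1)) ≤ npnum t k ∧
    (npnum t k : ℝ) ≤ 2 ^ (chk t (lev t k) - lev t k) / ((k : ℝ) + 1) := by
  set a : ℕ := 2 ^ (chk t (lev t k) - lev t k) with ha
  have hak : k + 1 ≤ a := by
    have h1 := succ_le_lev t k
    have h2 : lev t k ≤ chk t (lev t k) - lev t k := by unfold chk; omega
    have h3 := lt_two_pow' (chk t (lev t k) - lev t k)
    omega
  have hN : npnum t k = a / (k + 1) := rfl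
  have h1 : (k + 1) * (a / (k + 1)) ≤ a := Nat.mul_div_le a (k + 1)
  have h2 : a < (k + 1) * (a / (k + 1)) + (k + 1) := by
    have := Nat.lt_mul_div_succ a (Nat.succ_pos k)
    rw [Nat.succ_eq_add_one] at this
    nlinarith
  have h3 : 1 ≤ a / (k + 1) := (Nat.one_le_div_iff (Nat.succ_pos k)).2 hak
  have hk : (0 : ℝ) < (k : ℝ) + 1 := by positivity
  have ha' : (2 : ℝ) ^ (chk t (lev t k) - lev t k) = (a : ℝ) := by rw [ha]; push_cast; rfl
  rw [ha', hN]
  constructor
  · rw [div_le_iff₀ (by positivity)]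
    have h4 : a ≤ 2 * ((k + 1) * (a / (k + 1))) := by nlinarith
    have h5 : (a : ℝ) ≤ 2 * (((k : ℝ) + 1) * ((a / (k + 1) : ℕ) : ℝ)) := by exact_mod_cast h4
    linarith
  · rw [le_div_iff₀ hk]
    have h5 : ((k : ℝ) + 1) * ((a / (k + 1) : ℕ) : ℝ) ≤ a := by exact_mod_cast h1
    linarith

lemma wq_npnum : 1 / (2 * (2 ^ lev t k * ((k : ℝ) + 1))) ≤
      wq (Fin (chk t (lev t k)) → Bool) * npnum t k ∧
    wq (Fin (chk t (lev t k)) → Bool) * npnum t k ≤ 2 / (2 ^ lev t k * ((k : ℝ) + 1)) := by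
  obtain ⟨h1, h2⟩ := npnum_bounds t k
  have hk : (0 : ℝ) < (k : ℝ) + 1 := by positivity
  have hw := wq_pos' t k
  set b : ℝ := 2 ^ (chk t (lev t k) - lev t k) with hb
  have hb0 : 0 < b := by positivity
  have hpow := pow_chk t k
  rw [← hb] at hpow
  constructor
  · calc 1 / (2 * (2 ^ lev t k * ((k : ℝ) + 1)))
        = 1 / 2 ^ chk t (lev t k) * (b / (2 * ((k : ℝ) + 1))) := by
          rw [hpow]; field_simp
      _ ≤ wq (Fin (chk t (lev t k)) → Bool) * npnum t k :=
          mul_le_mul (le_wq t k) h1 (by positivity) hw.le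
  · calc wq (Fin (chk t (lev t k)) → Bool) * npnum t k
        ≤ 2 / 2 ^ chk t (lev t k) * (b / ((k : ℝ) + 1)) :=
          mul_le_mul (wq_le t k) h2 (Nat.cast_nonneg _) (by positivity)
      _ = 2 / (2 ^ lev t k * ((k : ℝ) + 1)) := by
          rw [hpow]; field_simp

lemma two_le_pow_lev : (2 : ℝ) ≤ 2 ^ lev t k := by
  have h1 := succ_le_lev t k
  calc (2 : ℝ) = 2 ^ 1 := by norm_num
    _ ≤ 2 ^ lev t k := pow_le_pow_right₀ (by norm_num) (by omega)

/-- The expected number of members is small. -/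
lemma np_upper : 2 ^ lev t k * (Zk t (npnum t) k - 1) ≤ 4 / ((k : ℝ) + 1) := by
  obtain ⟨-, h2⟩ := wq_npnum t k
  have hw := wq_pos' t k
  have hk : (0 : ℝ) < (k : ℝ) + 1 := by positivity
  set y := wq (Fin (chk t (lev t k)) → Bool) * npnum t k with hy
  have hy0 : 0 ≤ y := by positivity
  have h2n := two_le_pow_lev t k
  have hy1 : y ≤ 1 := by
    refine h2.trans ?_
    rw [div_le_one (by positivity)]
    have : (2 : ℝ) * 1 ≤ 2 ^ lev t k * ((k : ℝ) + 1) :=
      mul_le_mul h2n (by linarith [Nat.cast_nonneg (α := ℝ) k]) (by norm_num) (by positivity)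
    linarith
  have hZ : Zk t (npnum t) k ≤ Real.exp y := by
    rw [Zk, hy, mul_comm, Real.exp_nat_mul]
    refine pow_le_pow_left₀ (by linarith) ?_ _
    have := Real.add_one_le_exp (wq (Fin (chk t (lev t k)) → Bool))
    linarith
  have h3 := Real.abs_exp_sub_one_le (x := y) (by rwa [abs_of_nonneg hy0])
  rw [abs_of_nonneg hy0] at h3
  have h4 : Real.exp y - 1 ≤ 2 * y := (le_abs_self _).trans h3
  calc 2 ^ lev t k * (Zk t (npnum t) k - 1) ≤ 2 ^ lev t k * (2 * y) :=
        mul_le_mul_of_nonneg_left (by linarith) (by positivity)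
    _ ≤ 2 ^ lev t k * (2 * (2 / (2 ^ lev t k * ((k : ℝ) + 1)))) := by gcongr
    _ = 4 / ((k : ℝ) + 1) := by field_simp; norm_num

lemma np_lower : 1 / (4 * (2 ^ lev t k * ((k : ℝ) + 1))) ≤ 1 - 1 / Zk t (npnum t) k := by
  obtain ⟨h1, -⟩ := wq_npnum t k
  have hw := wq_pos' t k
  have hk : (0 : ℝ) < (k : ℝ) + 1 := by positivity
  set y : ℝ := 1 / (2 * (2 ^ lev t k * ((k : ℝ) + 1))) with hy
  have h2n := two_le_pow_lev t k
  have hy0 : 0 < y := by positivity
  have hy1 : y ≤ 1 := by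
    rw [hy, div_le_one (by positivity)]
    have : (2 : ℝ) * 1 ≤ 2 ^ lev t k * ((k : ℝ) + 1) :=
      mul_le_mul h2n (by linarith [Nat.cast_nonneg (α := ℝ) k]) (by norm_num) (by positivity)
    linarith
  have hZ : 1 + y ≤ Zk t (npnum t) k := by
    have := one_add_mul_le_pow (a := wq (Fin (chk t (lev t k)) → Bool)) (by linarith)
      (npnum t k)
    rw [Zk]
    rw [mul_comm] at this
    linarith
  have hZpos := Zk_pos t (npnum t) k
  have h3 : 1 / Zk t (npnum t) k ≤ 1 / (1 + y) := one_div_le_one_div_of_le (by linarith) hZ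
  have h4 : 1 / (1 + y) ≤ 1 - y / 2 := by
    rw [div_le_iff₀ (by linarith)]
    nlinarith
  have h5 : 1 / (4 * (2 ^ lev t k * ((k : ℝ) + 1))) = y / 2 := by
    rw [hy]; field_simp; norm_num
  rw [h5]
  linarith

lemma co_arg : (1 : ℝ) ≤ 2 ^ lev t k * ((k : ℝ) + 1) := by
  have h2n := two_le_pow_lev t k
  have : (2 : ℝ) * 1 ≤ 2 ^ lev t k * ((k : ℝ) + 1) :=
    mul_le_mul h2n (by linarith [Nat.cast_nonneg (α := ℝ) k]) (by norm_num) (by positivity)
  linarith

/-- The expected number of members is small. -/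
lemma co_upper : 2 ^ lev t k * (1 / Zk t (conum t) k) ≤ 3 / ((k : ℝ) + 1) := by
  have hk : (0 : ℝ) < (k : ℝ) + 1 := by positivity
  have harg := co_arg t k
  set Λ := Real.log (2 ^ lev t k * ((k : ℝ) + 1)) with hΛ
  have hΛ0 : 0 ≤ Λ := Real.log_nonneg harg
  set q : ℝ := 2 ^ chk t (lev t k) with hq
  have h4 : 4 ≤ q := four_le_pow t k
  have hN : q * Λ < conum t k + 1 := Nat.lt_floor_add_one _
  have hZ : Real.exp (Λ - 1) ≤ Zk t (conum t) k := by
    calc Real.exp (Λ - 1) ≤ Real.exp (conum t k * (1 / q)) := by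
          refine Real.exp_le_exp.2 ?_
          have h5 : Λ ≤ (conum t k + 1) * (1 / q) := by
            rw [mul_one_div, le_div_iff₀ (by linarith)]
            linarith
          have h6 : 1 / q ≤ 1 := by
            rw [div_le_one (by linarith)]; linarith
          linarith
      _ = Real.exp (1 / q) ^ conum t k := by rw [Real.exp_nat_mul]
      _ ≤ Zk t (conum t) k := by
          rw [Zk]
          exact pow_le_pow_left₀ (Real.exp_pos _).le (exp_le_one_add_wq t k) _
  have h7 : Real.exp (Λ - 1) = 2 ^ lev t k * ((k : ℝ) + 1) / Real.exp 1 := by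
    rw [Real.exp_sub, hΛ, Real.exp_log (by linarith)]
  have he3 : Real.exp 1 ≤ 3 := by
    have := Real.exp_one_lt_d9
    linarith
  have h8 : 2 ^ lev t k * ((k : ℝ) + 1) / 3 ≤ Zk t (conum t) k := by
    refine le_trans ?_ hZ
    rw [h7]
    exact div_le_div_of_nonneg_left (by positivity) (Real.exp_pos 1) he3
  calc 2 ^ lev t k * (1 / Zk t (conum t) k)
      ≤ 2 ^ lev t k * (1 / (2 ^ lev t k * ((k : ℝ) + 1) / 3)) := by
        refine mul_le_mul_of_nonneg_left ?_ (by positivity)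
        exact one_div_le_one_div_of_le (by positivity) h8
    _ = 3 / ((k : ℝ) + 1) := by field_simp

lemma co_lower : 1 / (3 * (2 ^ lev t k * ((k : ℝ) + 1))) ≤ 1 / Zk t (conum t) k := by
  have hk : (0 : ℝ) < (k : ℝ) + 1 := by positivity
  have harg := co_arg t k
  have hw := wq_pos' t k
  set w := wq (Fin (chk t (lev t k)) → Bool) with hwdef
  set Λ := Real.log (2 ^ lev t k * ((k : ℝ) + 1)) with hΛ
  have hΛ0 : 0 ≤ Λ := Real.log_nonneg harg
  set q : ℝ := 2 ^ chk t (lev t k) with hq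
  have h4 : 4 ≤ q := four_le_pow t k
  have hN : (conum t k : ℝ) ≤ q * Λ := Nat.floor_le (by positivity)
  -- `w * Λ ≤ 1`
  have hkn : (k : ℝ) + 1 ≤ 2 ^ lev t k := by
    have h5 : k + 1 ≤ 2 ^ lev t k := (succ_le_lev t k).trans (lt_two_pow' _).le
    exact_mod_cast h5
  have hΛ1 : Λ ≤ 2 ^ lev t k * 2 ^ lev t k := by
    have h6 := Real.log_le_sub_one_of_pos (show 0 < 2 ^ lev t k * ((k : ℝ) + 1) by linarith)
    have h7 : 2 ^ lev t k * ((k : ℝ) + 1) ≤ 2 ^ lev t k * 2 ^ lev t k := by gcongr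
    linarith
  have hwΛ : w * Λ ≤ 1 := by
    have h8 : (2 : ℝ) * (2 ^ lev t k * 2 ^ lev t k) ≤ q := by
      rw [hq, ← pow_add, ← pow_succ']
      exact pow_le_pow_right₀ (by norm_num) (by unfold chk; omega)
    calc w * Λ ≤ 2 / q * (2 ^ lev t k * 2 ^ lev t k) :=
          mul_le_mul (wq_le t k) hΛ1 hΛ0 (by positivity)
      _ = 2 * (2 ^ lev t k * 2 ^ lev t k) / q := by ring
      _ ≤ 1 := by rw [div_le_one (by linarith)]; exact h8
  have hZ : Zk t (conum t) k ≤ Real.exp (Λ + 1) := by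
    calc Zk t (conum t) k ≤ Real.exp w ^ conum t k := by
          rw [Zk]
          refine pow_le_pow_left₀ (by linarith) ?_ _
          have := Real.add_one_le_exp w
          linarith
      _ = Real.exp (conum t k * w) := by rw [Real.exp_nat_mul]
      _ ≤ Real.exp (Λ + 1) := by
          refine Real.exp_le_exp.2 ?_
          calc (conum t k : ℝ) * w ≤ (q * Λ) * w := mul_le_mul_of_nonneg_right hN hw.le
            _ = (w * q) * Λ := by ring
            _ = Λ + w * Λ := by rw [hwdef, hq, wq_mul]; ring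
            _ ≤ Λ + 1 := by linarith
  have h7 : Real.exp (Λ + 1) = 2 ^ lev t k * ((k : ℝ) + 1) * Real.exp 1 := by
    rw [Real.exp_add, hΛ, Real.exp_log (by linarith)]
  have he3 : Real.exp 1 ≤ 3 := by
    have := Real.exp_one_lt_d9
    linarith
  refine one_div_le_one_div_of_le (Zk_pos t _ k) (hZ.trans ?_)
  rw [h7]
  have : 2 ^ lev t k * ((k : ℝ) + 1) * Real.exp 1 ≤ 2 ^ lev t k * ((k : ℝ) + 1) * 3 :=
    mul_le_mul_of_nonneg_left he3 (by positivity)
  linarith

end Pool.Agent.H17.QM
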