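import Mathlib

/-!
# The first failure of soundness
-/

set_option autoImplicit false

namespace Pool.Agent.H17.QM

open MeasureTheory Filter Topology

/-- If a hit at level `k` is `μ k` times as likely as a failure at level `k`, up to `τ k`, on the
event that there was no failure at the levels `k1, …, k - 1`, where `μ` tends to zero and `τ` is
summable, then almost surely either there are infinitely many failures or there are finitely many
hits. -/
theorem ae_of_levels {Ω : Type*} [MeasurableSpace Ω] (P : Measure Ω) [IsProbabilityMeasure P]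
    {S Z : ℕ → Set Ω} (hS : ∀ k, MeasurableSet (S k))
    {μ τ : ℕ → ℝ} (hμ : Tendsto μ atTop (𝓝 0)) (hτ0 : ∀ k, 0 ≤ τ k)
    (hτ : Summable τ) (K : ℕ)
    (h : ∀ k1 k, K ≤ k1 → k1 ≤ k → P.real ((⋂ j ∈ Finset.Ico k1 k, S j) ∩ Z k) ≤
      μ k * P.real ((⋂ j ∈ Finset.Ico k1 k, S j) ∩ (S k)ᶜ) + τ k) :
    ∀ᵐ ω ∂P, (∀ᶠ k in atTop, ω ∈ S k) → ∀ᶠ k in atTop, ω ∉ Z k := by
  classical
  -- the bound for one starting level
  have key : ∀ k1, K ≤ k1 → ∀ m : ℝ, (∀ k, k1 ≤ k → μ k ≤ m) → 0 ≤ m →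
      P ({ω | ∀ k, k1 ≤ k → ω ∈ S k} ∩ {ω | ∃ k, k1 ≤ k ∧ ω ∈ Z k}) ≤
        ENNReal.ofReal m + ∑' j, ENNReal.ofReal (τ (j + k1)) := by
    intro k1 hk1 m hm hm0
    set F : ℕ → Set Ω := fun j => (⋂ i ∈ Finset.Ico k1 (j + k1), S i) ∩ (S (j + k1))ᶜ with hF
    have hFm : ∀ j, MeasurableSet (F j) := fun j =>
      (Finset.measurableSet_biInter _ fun i _ => hS i).inter (hS _).compl
    have hFd : Pairwise (Function.onFun Disjoint F) := by
      intro i j hij
      rcases lt_or_gt_of_ne hij with h1 | h1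
      · refine Set.disjoint_left.2 fun ω h2 h3 => h2.2 ?_
        have := h3.1
        rw [Set.mem_iInter₂] at this
        exact this (i + k1) (Finset.mem_Ico.2 ⟨by omega, by omega⟩)
      · refine Set.disjoint_left.2 fun ω h2 h3 => h3.2 ?_
        have := h2.1
        rw [Set.mem_iInter₂] at this
        exact this (j + k1) (Finset.mem_Ico.2 ⟨by omega, by omega⟩)
    have hsub : {ω | ∀ k, k1 ≤ k → ω ∈ S k} ∩ {ω | ∃ k, k1 ≤ k ∧ ω ∈ Z k} ⊆
        ⋃ j, ((⋂ i ∈ Finset.Ico k1 (j + k1), S i) ∩ Z (j + k1)) := by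
      rintro ω ⟨h1, k, h2, h3⟩
      rw [Set.mem_iUnion]
      refine ⟨k - k1, ?_⟩
      have e : k - k1 + k1 = k := by omega
      rw [e]
      refine ⟨?_, h3⟩
      rw [Set.mem_iInter₂]
      intro i hi
      exact h1 i (Finset.mem_Ico.1 hi).1
    have hterm : ∀ j, P ((⋂ i ∈ Finset.Ico k1 (j + k1), S i) ∩ Z (j + k1)) ≤
        ENNReal.ofReal m * P (F j) + ENNReal.ofReal (τ (j + k1)) := by
      intro j
      have h1 := h k1 (j + k1) hk1 (by omega)
      have h2 : P.real ((⋂ i ∈ Finset.Ico k1 (j + k1), S i) ∩ Z (j + k1)) ≤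
          m * P.real (F j) + τ (j + k1) := by
        refine h1.trans (add_le_add ?_ le_rfl)
        exact mul_le_mul_of_nonneg_right (hm _ (by omega)) measureReal_nonneg
      calc P ((⋂ i ∈ Finset.Ico k1 (j + k1), S i) ∩ Z (j + k1))
          = ENNReal.ofReal (P.real ((⋂ i ∈ Finset.Ico k1 (j + k1), S i) ∩ Z (j + k1))) := by
            rw [measureReal_def, ENNReal.ofReal_toReal (measure_ne_top _ _)]
        _ ≤ ENNReal.ofReal (m * P.real (F j) + τ (j + k1)) := ENNReal.ofReal_le_ofReal h2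
        _ = ENNReal.ofReal m * P (F j) + ENNReal.ofReal (τ (j + k1)) := by
            rw [ENNReal.ofReal_add (mul_nonneg hm0 measureReal_nonneg) (hτ0 _),
              ENNReal.ofReal_mul hm0, measureReal_def, ENNReal.ofReal_toReal (measure_ne_top _ _)]
    calc P ({ω | ∀ k, k1 ≤ k → ω ∈ S k} ∩ {ω | ∃ k, k1 ≤ k ∧ ω ∈ Z k})
        ≤ ∑' j, P ((⋂ i ∈ Finset.Ico k1 (j + k1), S i) ∩ Z (j + k1)) :=
          (measure_mono hsub).trans (measure_iUnion_le _)
      _ ≤ ∑' j, (ENNReal.ofReal m * P (F j) + ENNReal.ofReal (τ (j + k1))) :=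
          ENNReal.tsum_le_tsum hterm
      _ = ENNReal.ofReal m * ∑' j, P (F j) + ∑' j, ENNReal.ofReal (τ (j + k1)) := by
          rw [ENNReal.tsum_add, ENNReal.tsum_mul_left]
      _ ≤ ENNReal.ofReal m * 1 + ∑' j, ENNReal.ofReal (τ (j + k1)) := by
          refine add_le_add ?_ le_rfl
          gcongr
          rw [← measure_iUnion hFd hFm]
          exact prob_le_one
      _ = _ := by rw [mul_one]
  -- the bound tends to zero
  have hlim : Tendsto (fun k1 => ∑' j, ENNReal.ofReal (τ (j + k1))) atTop (𝓝 0) := by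
    have h1 : ∑' j, ENNReal.ofReal (τ j) ≠ ⊤ := by
      rw [← ENNReal.ofReal_tsum_of_nonneg hτ0 hτ]
      exact ENNReal.ofReal_ne_top
    exact ENNReal.tendsto_sum_nat_add _ h1
  have hzero : ∀ k0, P ({ω | ∀ k, k0 ≤ k → ω ∈ S k} ∩ {ω | ∃ᶠ k in atTop, ω ∈ Z k}) = 0 := by
    intro k0
    refine le_antisymm ?_ zero_le
    refine ENNReal.le_of_forall_pos_le_add fun ε hε _ => ?_
    rw [zero_add]
    have hε2 : (0 : ℝ) < ε / 2 := by positivity
    obtain ⟨a, ha⟩ := eventually_atTop.1 (hμ.eventually (ge_mem_nhds hε2))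
    have hε2' : (0 : ENNReal) < ENNReal.ofReal (ε / 2) := ENNReal.ofReal_pos.2 hε2
    obtain ⟨b, hb⟩ := eventually_atTop.1 (hlim.eventually (ge_mem_nhds hε2'))
    set k1 := max (max a b) (max K k0) with hk1
    have h1 := key k1 (le_trans (le_max_left _ _) (le_max_right _ _)) (ε / 2)
      (fun k hk => ha k (le_trans (le_trans (le_max_left _ _) (le_max_left _ _)) hk)) hε2.le
    have h2 := hb k1 (le_trans (le_max_right _ _) (le_max_left _ _))
    have h3 : {ω | ∀ k, k0 ≤ k → ω ∈ S k} ∩ {ω | ∃ᶠ k in atTop, ω ∈ Z k} ⊆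
        {ω | ∀ k, k1 ≤ k → ω ∈ S k} ∩ {ω | ∃ k, k1 ≤ k ∧ ω ∈ Z k} := by
      rintro ω ⟨h4, h5⟩
      refine ⟨fun k hk => h4 k (le_trans (le_trans (le_max_right _ _) (le_max_right _ _)) hk), ?_⟩
      exact (frequently_atTop.1 h5) k1
    refine (measure_mono h3).trans (h1.trans ((add_le_add le_rfl h2).trans (le_of_eq ?_)))
    rw [← ENNReal.ofReal_add hε2.le hε2.le, add_halves]
    exact ENNReal.ofReal_coe_nnreal
  have hall : ∀ᵐ ω ∂P, ∀ k0, ω ∉ {ω | ∀ k, k0 ≤ k → ω ∈ S k} ∩ {ω | ∃ᶠ k in atTop, ω ∈ Z k} := by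
    rw [ae_all_iff]
    intro k0
    exact measure_eq_zero_iff_ae_notMem.1 (hzero k0)
  filter_upwards [hall] with ω hω hev
  by_contra hcon
  obtain ⟨k0, hk0⟩ := eventually_atTop.1 hev
  refine hω k0 ⟨hk0, ?_⟩
  rw [not_eventually] at hcon
  refine hcon.mono fun k hk => ?_
  simpa using hk

end Pool.Agent.H17.QM
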