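import Pool.Agent.H17.QV.Level

/-!
# The levels: lengths, blocks, membership
-/

set_option autoImplicit false

namespace Pool.Agent.H17.QM

open MeasureTheory Filter Topology

variable (t : ℕ → ℕ)

/-! ### The lengths -/

lemma lev_succ (k : ℕ) : lev t (k + 1) = 2 ^ (t (lev t k) + lev t k + k) := rfl

lemma lt_two_pow' (n : ℕ) : n < 2 ^ n := Nat.lt_pow_self (by norm_num)

lemma succ_le_lev (k : ℕ) : k + 1 ≤ lev t k := by
  induction k with
  | zero => exact le_rfl
  | succ k ih =>
    rw [lev_succ]
    have := lt_two_pow' (t (lev t k) + lev t k + k)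
    omega

lemma lev_lt_succ (k : ℕ) : lev t k < lev t (k + 1) := by
  rw [lev_succ]
  have := lt_two_pow' (t (lev t k) + lev t k + k)
  omega

lemma lev_strictMono : StrictMono (lev t) := strictMono_nat_of_lt_succ (lev_lt_succ t)

lemma lev_injective : Function.Injective (lev t) := (lev_strictMono t).injective

lemma bound_lt_lev {C k : ℕ} (hC : C ≤ 2 ^ k) : C * 2 ^ t (lev t k) < lev t (k + 1) := by
  have h1 : C * 2 ^ t (lev t k) ≤ 2 ^ k * 2 ^ t (lev t k) := Nat.mul_le_mul_right _ hC
  have h2 : 2 ^ k * 2 ^ t (lev t k) = 2 ^ (k + t (lev t k)) := (pow_add _ _ _).symm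
  have h3 := succ_le_lev t k
  have h4 : 2 ^ (k + t (lev t k)) < 2 ^ (t (lev t k) + lev t k + k) :=
    Nat.pow_lt_pow_right (by norm_num) (by omega)
  rw [lev_succ]
  omega

lemma length_dbl (x : List Bool) : (dbl x).length = 2 * x.length := by
  induction x with
  | nil => rfl
  | cons b x ih => rw [dbl_cons, List.length_cons, List.length_cons, List.length_cons, ih]; ring

lemma length_lt_code (x y : List Bool) (i : ℕ) : x.length < (code x y i).length := by
  unfold code
  simp only [List.length_append, List.length_cons, length_dbl, List.length_replicate]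
  omega

/-! ### The blocks -/

variable (num : ℕ → ℕ) (k : ℕ)

/-- The block of level `k`. -/
noncomputable def bl (p : ((Fin (lev t k) → Bool) × Fin (num k)) × Fin (chk t (lev t k))) :
    List Bool := code (List.ofFn p.1.1) (str p.1.2) p.2

lemma bl_injective : Function.Injective (bl t num k) := by
  rintro ⟨⟨v, y⟩, i⟩ ⟨⟨v', y'⟩, i'⟩ h
  obtain ⟨h0, h1, h2⟩ := code_injective h
  have e0 : v = v' := List.ofFn_injective h0
  have e1 : y = y' := Fin.ext (str_injective h1)
  have e2 : i = i' := Fin.ext h2
  rw [e0, e1, e2]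

lemma length_bl (p : ((Fin (lev t k) → Bool) × Fin (num k)) × Fin (chk t (lev t k))) :
    lev t k < (bl t num k p).length := by
  have := length_lt_code (List.ofFn p.1.1) (str p.1.2) p.2
  rwa [List.length_ofFn] at this

variable {t num k}

lemma wit_ofFn {A : List Bool → Bool} {v : Fin (lev t k) → Bool} {y : List Bool} :
    Wit t num A (List.ofFn v) y ↔
      rk y < num k ∧ ∀ i < chk t (lev t k), A (code (List.ofFn v) y i) = true := by
  unfold Wit
  simp only [List.length_ofFn]
  constructor
  · rintro ⟨k', h1, h2, h3⟩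
    have hk : k = k' := lev_injective t h1
    exact ⟨by rw [hk]; exact h2, h3⟩
  · rintro ⟨h1, h2⟩
    exact ⟨k, rfl, h1, h2⟩

lemma wit_plant (v : Fin (lev t k) → Bool) (ω : List Bool → Bool)
    {g : (Fin (lev t k) → Bool) × Fin (num k) → Fin (chk t (lev t k)) → Bool}
    (hg : g ∈ wf (fun _ : Fin (chk t (lev t k)) => true))
    (W : Finset ((Fin (lev t k) → Bool) × Fin (num k))) :
    (∃ y, Wit t num (fill (bl t num k) ω
      (plant (fun _ : Fin (chk t (lev t k)) => true) g W)) (List.ofFn v) y) ↔
      ∃ y, (v, y) ∈ W := by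
  have hinj := bl_injective t num k
  simp only [wit_ofFn]
  constructor
  · rintro ⟨y, hy, h⟩
    refine ⟨⟨rk y, hy⟩, ?_⟩
    by_contra hW
    apply (mem_wf _).1 hg (v, ⟨rk y, hy⟩)
    funext i
    have h1 := h i i.2
    have h2 : code (List.ofFn v) y i = bl t num k ((v, ⟨rk y, hy⟩), i) := by
      rw [bl, str_rk]
    rw [h2, fill_block _ hinj, plant, if_neg hW] at h1
    exact h1
  · rintro ⟨y, hy⟩
    refine ⟨str y, by rw [rk_str]; exact y.2, fun i hi => ?_⟩
    have h2 : code (List.ofFn v) (str y) i = bl t num k ((v, y), ⟨i, hi⟩) := rfl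
    rw [h2, fill_block _ hinj, plant, if_pos hy]

lemma wit_fill_ne {x : List Bool} (hx : x.length ≠ lev t k) (ω : List Bool → Bool)
    (h : (Fin (lev t k) → Bool) × Fin (num k) → Fin (chk t (lev t k)) → Bool)
    (y : List Bool) : Wit t num (fill (bl t num k) ω h) x y ↔ Wit t num ω x y := by
  have h1 : ∀ i, fill (bl t num k) ω h (code x y i) = ω (code x y i) := by
    intro i
    refine fill_off _ _ _ fun p hp => hx ?_
    rw [← (code_injective hp).1, List.length_ofFn]
  unfold Wit
  simp only [h1]

lemma prob_fill {V : QVer (List Bool)} (hV : ∀ i s, V.query i = some s → s.length ≤ lev t k)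
    (ψ : V.wit) (ω : List Bool → Bool)
    (h : (Fin (lev t k) → Bool) × Fin (num k) → Fin (chk t (lev t k)) → Bool) :
    (V.alg ψ).prob (ph (fill (bl t num k) ω h)) = (V.alg ψ).prob (ph ω) := by
  refine (V.alg ψ).prob_congr fun i s hs => ?_
  have hs' : V.query i = some s := hs
  have h1 : fill (bl t num k) ω h s = ω s := by
    refine fill_off _ _ _ fun p hp => ?_
    have h2 := length_bl t num k p
    rw [hp] at h2
    have := hV i s hs'
    omega
  simp only [ph, h1]

/-! ### Measurability -/

lemma measurableSet_wit (t num : ℕ → ℕ) (x : List Bool) :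
    MeasurableSet {A : List Bool → Bool | ∃ y, Wit t num A x y} := by
  have e : {A : List Bool → Bool | ∃ y, Wit t num A x y} =
      ⋃ q : {q : List Bool × ℕ // x.length = lev t q.2 ∧ rk q.1 < num q.2},
        ⋂ i : Fin (chk t x.length), (fun ω : List Bool → Bool => ω (code x q.1.1 i)) ⁻¹'
          {true} := by
    ext ω
    simp only [Wit, Set.mem_ofPred_eq, Set.mem_iUnion, Set.mem_iInter,
      Set.mem_preimage, Set.mem_singleton_iff]
    constructor
    · rintro ⟨y, k, h1, h2, h3⟩
      exact ⟨⟨(y, k), h1, h2⟩, fun i => h3 i i.2⟩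
    · rintro ⟨⟨⟨y, k⟩, h1, h2⟩, h3⟩
      exact ⟨y, k, h1, h2, fun i hi => h3 ⟨i, hi⟩⟩
  rw [e]
  exact MeasurableSet.iUnion fun y => MeasurableSet.iInter fun i =>
    (measurable_pi_apply _) (measurableSet_singleton _)

/-! ### Probabilities -/

/-- `1 / Zk t num k` is the probability that a string of length `lev t k` has no witness. -/
noncomputable def Zk (t num : ℕ → ℕ) (k : ℕ) : ℝ :=
  (1 + wq (Fin (chk t (lev t k)) → Bool)) ^ num k

lemma card_chk (t : ℕ → ℕ) (k : ℕ) : 2 ≤ Fintype.card (Fin (chk t (lev t k)) → Bool) := by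
  simp only [Fintype.card_pi, Fintype.card_bool, Finset.prod_const, Finset.card_univ,
    Fintype.card_fin]
  calc 2 = 2 ^ 1 := rfl
    _ ≤ 2 ^ chk t (lev t k) := Nat.pow_le_pow_right (by norm_num) (by unfold chk; omega)

lemma Zk_pos (t num : ℕ → ℕ) (k : ℕ) : 0 < Zk t num k := by
  have := wq_pos (card_chk t k)
  unfold Zk
  positivity

lemma one_le_Zk (t num : ℕ → ℕ) (k : ℕ) : 1 ≤ Zk t num k := by
  have := wq_pos (card_chk t k)
  unfold Zk
  exact one_le_pow₀ (by linarith)

/-- The block of `x`. -/
noncomputable def xb (t num : ℕ → ℕ) (k : ℕ) (x : List Bool)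
    (p : Fin (num k) × Fin (chk t (lev t k))) : List Bool := code x (str p.1) p.2

lemma xb_injective (t num : ℕ → ℕ) (k : ℕ) (x : List Bool) :
    Function.Injective (xb t num k x) := by
  rintro ⟨y, i⟩ ⟨y', i'⟩ h
  obtain ⟨-, h1, h2⟩ := code_injective h
  exact Prod.ext (Fin.ext (str_injective h1)) (Fin.ext h2)

lemma wit_fill_xb {x : List Bool} (hx : x.length = lev t k) (ω : List Bool → Bool)
    (g : Fin (num k) → Fin (chk t (lev t k)) → Bool) :
    (¬ ∃ y, Wit t num (fill (xb t num k x) ω g) x y) ↔
      g ∈ wf (fun _ : Fin (chk t (lev t k)) => true) := by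
  have hinj := xb_injective t num k x
  rw [← not_iff_not, mem_wf]
  push Not
  constructor
  · rintro ⟨y, k', h1, h2, h3⟩
    have hk : k' = k := lev_injective t (h1.symm.trans hx)
    subst hk
    refine ⟨⟨rk y, h2⟩, funext fun i => ?_⟩
    have h4 := h3 i (by rw [hx]; exact i.2)
    have h5 : code x y i = xb t num k' x (⟨rk y, h2⟩, i) := by
      rw [xb, str_rk]
    rw [h5, fill_block _ hinj] at h4
    exact h4
  · rintro ⟨y, hy⟩
    refine ⟨str y, k, hx, by rw [rk_str]; exact y.2, fun i hi => ?_⟩
    rw [hx] at hi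
    have h2 : code x (str y) i = xb t num k x (y, ⟨i, hi⟩) := rfl
    rw [h2, fill_block _ hinj, hy]

lemma wit_fill_xb_ne {x x' : List Bool} (hne : x' ≠ x) (ω : List Bool → Bool)
    (g : Fin (num k) → Fin (chk t (lev t k)) → Bool) (y : List Bool) :
    Wit t num (fill (xb t num k x) ω g) x' y ↔ Wit t num ω x' y := by
  have h : ∀ (i : ℕ), fill (xb t num k x) ω g (code x' y i) = ω (code x' y i) := by
    intro i
    refine fill_off _ _ _ fun p hp => ?_
    exact hne (code_injective hp).1.symm
  unfold Wit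
  simp only [h]

/-- Membership of `x` is independent of what does not depend on the block of `x`. -/
lemma prob_nowit {x : List Bool} (hx : x.length = lev t k) {σ : Set (List Bool → Bool)}
    (hσ : MeasurableSet σ) (hσ' : ∀ ω g, fill (xb t num k x) ω g ∈ σ ↔ ω ∈ σ) :
    (coins (List Bool)).real (σ ∩ {ω | ¬ ∃ y, Wit t num ω x y}) =
      1 / Zk t num k * (coins (List Bool)).real σ := by
  classical
  have he := xb_injective t num k x
  have hD : MeasurableSet {ω : List Bool → Bool | ¬ ∃ y, Wit t num ω x y} :=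
    (measurableSet_wit t num x).compl
  have hK := card_chk t k
  set N : ℝ := (Fintype.card (Fin (num k) → Fin (chk t (lev t k)) → Bool) : ℝ) with hN
  have hNpos : 0 < N := by
    rw [hN]; exact_mod_cast Fintype.card_pos
  set o : Fin (chk t (lev t k)) → Bool := fun _ => true with ho
  have hwf : ((wf (Y := Fin (num k)) o).card : ℝ) = N * (1 / Zk t num k) := by
    have h1 := card_wf (Y := Fin (num k)) hK o
    rw [Fintype.card_fin] at h1
    have hpos := Zk_pos t num k
    rw [hN, ← h1, ← Zk]
    field_simp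
  have h1 := resample (κ := List Bool) (xb t num k x) he
    (F := (σ ∩ {ω | ¬ ∃ y, Wit t num ω x y}).indicator fun _ => (1 : ℝ))
    ((integrable_const 1).indicator (hσ.inter hD))
  rw [integral_indicator (hσ.inter hD)] at h1
  simp only [integral_const, measureReal_restrict_apply_univ, smul_eq_mul, mul_one] at h1
  have h2 : ∀ ω, ∑ g : Fin (num k) → Fin (chk t (lev t k)) → Bool,
      (σ ∩ {ω | ¬ ∃ y, Wit t num ω x y}).indicator (fun _ => (1 : ℝ))
        (fill (xb t num k x) ω g) =
      σ.indicator (fun _ => N * (1 / Zk t num k)) ω := by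
    intro ω
    by_cases hω : ω ∈ σ
    · rw [Set.indicator_of_mem hω]
      have h3 : ∀ g : Fin (num k) → Fin (chk t (lev t k)) → Bool,
          (σ ∩ {ω | ¬ ∃ y, Wit t num ω x y}).indicator (fun _ => (1 : ℝ))
            (fill (xb t num k x) ω g) =
          if g ∈ wf o then 1 else 0 := by
        intro g
        by_cases hg : g ∈ wf o
        · rw [if_pos hg, Set.indicator_of_mem]
          exact ⟨(hσ' ω g).2 hω, (wit_fill_xb hx ω g).2 hg⟩
        · rw [if_neg hg, Set.indicator_of_notMem]
          rintro ⟨-, h4⟩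
          exact hg ((wit_fill_xb hx ω g).1 h4)
      simp only [h3]
      rw [← Finset.sum_filter, Finset.filter_mem_eq_inter, Finset.univ_inter, Finset.sum_const,
        nsmul_eq_mul, mul_one, hwf]
    · rw [Set.indicator_of_notMem hω]
      refine Finset.sum_eq_zero fun g _ => Set.indicator_of_notMem ?_ _
      exact fun h => hω ((hσ' ω g).1 h.1)
  simp only [h2] at h1
  rw [integral_indicator hσ] at h1
  simp only [integral_const, measureReal_restrict_apply_univ, smul_eq_mul] at h1
  rw [← hN] at h1
  have h5 : N * (coins (List Bool)).real (σ ∩ {ω | ¬ ∃ y, Wit t num ω x y}) =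
      N * (1 / Zk t num k * (coins (List Bool)).real σ) := by
    rw [h1]; ring
  exact mul_left_cancel₀ hNpos.ne' h5

end Pool.Agent.H17.QM
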