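import Pool.Agent.H17.QV.Main

/-!
# Relative to a random oracle, UP has a language that is immune for quantum co-verifiers

The definitions are in `Pool/Agent/H17/QM/Defs.lean` (query algorithms, random oracle, strings)
and `Pool/Agent/H17/QV/Defs.lean` (verifiers, the language `nplang`).
-/

set_option autoImplicit false

namespace Pool.Agent.Results.MP_0f8dca_lc.UPQuantumImmune

open MeasureTheory Pool.Agent.H17.QM

/-- Let `t` be any function. With probability one over the random oracle `A`, the language
`nplang t A` is infinite, only finitely many strings have more than one witness, and every quantum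
verifier `M` of a countable family, making at most `C * 2 ^ t n` queries of length at most
`C * 2 ^ t n` on inputs of length `n`, has the following property: if there are infinitely many
`x` for which no witness state is accepted with probability more than `β`, then for every `α > β`
there are infinitely many such `x` (with `α` in place of `β`) outside `nplang t A`. -/
theorem result (t : ℕ → ℕ) (𝓜 : Set (List Bool → QVer (List Bool))) (hc : 𝓜.Countable)
    (hB : ∀ M ∈ 𝓜, Bounded t M) :
    ∀ᵐ A ∂(coins (List Bool)), (nplang t A).Infinite ∧
      {x | ∃ y y', y ≠ y' ∧ Wit t (npnum t) A x y ∧ Wit t (npnum t) A x y'}.Finite ∧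
      ∀ M ∈ 𝓜, ∀ α β : ℝ, β < α → {x | (M x).Below (ph A) β}.Infinite →
        {x | x ∉ nplang t A ∧ (M x).Below (ph A) α}.Infinite := by
  filter_upwards [nplang_infinite t, unique_witness t, np_immune t 𝓜 hc hB] with A h1 h2 h3
  exact ⟨h1, h2, h3⟩

/-- The immunity: if a verifier of the family accepts (some witness state with probability at
least `α`) all strings outside a language `L` contained in `nplang t A`, and no witness state with
probability more than `β < α` on the strings of `L`, then `L` is finite. -/
theorem immune (t : ℕ → ℕ) (𝓜 : Set (List Bool → QVer (List Bool))) (hc : 𝓜.Countable)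
    (hB : ∀ M ∈ 𝓜, Bounded t M) :
    ∀ᵐ A ∂(coins (List Bool)), ∀ M ∈ 𝓜, ∀ α β : ℝ, β < α →
      ∀ L : Set (List Bool), (∀ x ∉ L, (M x).Accepts (ph A) α) →
        (∀ x ∈ L, (M x).Below (ph A) β) → L ⊆ nplang t A → L.Finite := by
  filter_upwards [result t 𝓜 hc hB] with A hA
  intro M hM α β hαβ L h1 h2 h3
  by_contra hL
  obtain ⟨γ, hγ1, hγ2⟩ := exists_between hαβ
  refine hA.2.2 M hM γ β hγ1 (Set.Infinite.mono (fun x hx => h2 x hx) hL) ?_
  refine Set.finite_empty.subset fun x hx => ?_
  obtain ⟨ψ, hψ⟩ := h1 x fun hxL => hx.1 (h3 hxL)
  exact absurd (hx.2 ψ) (not_le.2 (lt_of_lt_of_le hγ2 hψ))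

end Pool.Agent.Results.MP_0f8dca_lc.UPQuantumImmune
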